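import Mathlib
open MeasureTheory Filter Topology Set
open scoped ContDiff

namespace H25Ani

/-- primitive in the first variable -/
noncomputable def prim (G : ℝ × ℝ → ℝ) (x : ℝ × ℝ) : ℝ :=
  -1 + 2 * ∫ σ : ℝ, (if σ ≤ x.1 then G (σ, x.2) else 0)

section
variable {G : ℝ × ℝ → ℝ} (hGm : Measurable G) (hG0 : ∀ x, 0 ≤ G x) {M : ℝ} (hGM : ∀ x, G x ≤ M)
  {r : ℝ} (hGr : ∀ x : ℝ × ℝ, r < |x.1| ∨ r < |x.2| → G x = 0)
  (hG1 : ∀ t, ∫ σ, G (σ, t) ≤ 1)
include hGm hG0 hGM hGr hG1
set_option linter.unusedSectionVars false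

lemma slice_int (t : ℝ) : Integrable (fun σ => G (σ, t)) := by
  have h1 : IntegrableOn (fun σ => G (σ, t)) (Icc (-r) r) := by
    refine Measure.integrableOn_of_bounded (M := M) (by simp) ?_ ?_
    · exact (hGm.comp (measurable_id.prodMk measurable_const)).aestronglyMeasurable
    · refine Eventually.of_forall fun σ => ?_
      rw [Real.norm_eq_abs, abs_of_nonneg (hG0 _)]; exact hGM _
  rw [← integrableOn_univ]
  refine h1.of_forall_sdiff_eq_zero MeasurableSet.univ fun σ hσ => ?_
  apply hGr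
  left
  by_contra hcon
  push Not at hcon
  exact hσ.2 (abs_le.1 hcon)

lemma cut_int (s t : ℝ) : Integrable (fun σ : ℝ => if σ ≤ s then G (σ, t) else 0) := by
  have := (slice_int hGm hG0 hGM hGr hG1 t).indicator (measurableSet_Iic (a := s))
  refine this.congr (Eventually.of_forall fun σ => ?_)
  simp [indicator, mem_Iic]

lemma prim_bounds (x : ℝ × ℝ) : -1 ≤ prim G x ∧ prim G x ≤ 1 := by
  have h0 : 0 ≤ ∫ σ : ℝ, (if σ ≤ x.1 then G (σ, x.2) else 0) :=
    integral_nonneg fun σ => by simp only [Pi.zero_apply]; split_ifs; exact hG0 _; exact le_rfl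
  have h1 : ∫ σ : ℝ, (if σ ≤ x.1 then G (σ, x.2) else 0) ≤ 1 := by
    refine le_trans ?_ (hG1 x.2)
    apply integral_mono (cut_int hGm hG0 hGM hGr hG1 _ _) (slice_int hGm hG0 hGM hGr hG1 _)
    intro σ
    simp only
    split_ifs
    · exact le_rfl
    · exact hG0 _
  unfold prim
  constructor <;> linarith

lemma prim_meas : StronglyMeasurable (prim G) := by
  unfold prim
  have h : StronglyMeasurable (Function.uncurry fun (x : ℝ × ℝ) (σ : ℝ) =>
      if σ ≤ x.1 then G (σ, x.2) else 0) := by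
    apply Measurable.stronglyMeasurable
    apply Measurable.ite
    · exact measurableSet_le measurable_snd (measurable_fst.comp measurable_fst)
    · exact hGm.comp (measurable_snd.prodMk (measurable_snd.comp measurable_fst))
    · exact measurable_const
  exact (stronglyMeasurable_const).add (h.integral_prod_right.const_mul 2)

lemma prim_locInt : LocallyIntegrable (prim G) := by
  apply LocallyIntegrable.mono (g := prim G) (f := fun _ => (1:ℝ))
  · exact continuous_const.locallyIntegrable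
  · exact (prim_meas hGm hG0 hGM hGr hG1).aestronglyMeasurable
  · refine Eventually.of_forall fun x => ?_
    have := prim_bounds hGm hG0 hGM hGr hG1 x
    rw [Real.norm_eq_abs, abs_le]; simp; exact this

lemma G_locInt : LocallyIntegrable G := by
  apply LocallyIntegrable.mono (g := G) (f := fun _ => M)
  · exact continuous_const.locallyIntegrable
  · exact hGm.aestronglyMeasurable
  · refine Eventually.of_forall fun x => ?_
    rw [Real.norm_eq_abs, abs_of_nonneg (hG0 _)]
    exact (hGM x).trans (le_abs_self _)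

lemma prim_diff (x : ℝ × ℝ) {h : ℝ} (hh : 0 ≤ h) :
    prim G (x + (h, 0)) - prim G x = 2 * ∫ σ in (0:ℝ)..h, G (x + (σ, 0)) := by
  unfold prim
  simp only [Prod.fst_add, Prod.snd_add, add_zero]
  have e1 : (∫ σ : ℝ, (if σ ≤ x.1 + h then G (σ, x.2) else 0))
      - ∫ σ : ℝ, (if σ ≤ x.1 then G (σ, x.2) else 0)
      = ∫ σ in (x.1)..(x.1 + h), G (σ, x.2) := by
    rw [← integral_sub (cut_int hGm hG0 hGM hGr hG1 _ _) (cut_int hGm hG0 hGM hGr hG1 _ _),
      intervalIntegral.integral_of_le (by linarith), ← integral_indicator measurableSet_Ioc]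
    congr 1; ext σ
    by_cases h1 : σ ≤ x.1
    · have h2 : σ ≤ x.1 + h := by linarith
      simp [h1, h2, indicator]
    · by_cases h2 : σ ≤ x.1 + h
      · simp [h1, h2, indicator]
      · simp [h1, h2, indicator]
  have e2 : ∫ σ in (0:ℝ)..h, G (x + (σ, 0)) = ∫ σ in (x.1)..(x.1 + h), G (σ, x.2) := by
    have := intervalIntegral.integral_comp_add_left (a := 0) (b := h) (fun σ => G (σ, x.2)) x.1
    rw [add_zero] at this
    rw [← this]
    congr 1; ext σ
    congr 1
    ext <;> simp
  rw [e2, ← e1]; ring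

/-- convolution with a smooth kernel -/
lemma conv_deriv (ρ : ℝ × ℝ → ℝ) (hρ : ContDiff ℝ ∞ ρ) (hρc : HasCompactSupport ρ) (x : ℝ × ℝ) :
    fderiv ℝ (convolution ρ (prim G) (ContinuousLinearMap.lsmul ℝ ℝ) volume) x (1, 0)
      = 2 * convolution ρ G (ContinuousLinearMap.lsmul ℝ ℝ) volume x := by
  set φ := convolution ρ (prim G) (ContinuousLinearMap.lsmul ℝ ℝ) volume with hφ
  set γ := convolution ρ G (ContinuousLinearMap.lsmul ℝ ℝ) volume with hγ
  have hLI := prim_locInt hGm hG0 hGM hGr hG1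
  have hGLI := G_locInt hGm hG0 hGM hGr hG1
  have hφC : ContDiff ℝ ∞ φ := hρc.contDiff_convolution_left _ hρ hLI
  have hφd : DifferentiableAt ℝ φ x := (hφC.differentiable (by norm_num)) x
  have hγc : Continuous γ := hρc.continuous_convolution_left _ hρ.continuous hGLI
  -- the increment formula
  have hinc : ∀ h : ℝ, 0 ≤ h → φ (x + (h, 0)) = φ x + 2 * ∫ σ in (0:ℝ)..h, γ (x + (σ, 0)) := by
    intro h hh
    have hI1 : Integrable (fun z => ρ z * prim G (x + (h, 0) - z)) :=
      hρc.convolutionExists_left (ContinuousLinearMap.lsmul ℝ ℝ) hρ.continuous hLI _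
    have hI2 : Integrable (fun z => ρ z * prim G (x - z)) :=
      hρc.convolutionExists_left (ContinuousLinearMap.lsmul ℝ ℝ) hρ.continuous hLI _
    have e1 : φ (x + (h, 0)) = ∫ z, ρ z * prim G (x + (h, 0) - z) := rfl
    have e2 : φ x = ∫ z, ρ z * prim G (x - z) := rfl
    have e3 : φ (x + (h, 0)) - φ x
        = ∫ z, ρ z * (2 * ∫ σ in (0:ℝ)..h, G (x - z + (σ, 0))) := by
      rw [e1, e2, ← integral_sub hI1 hI2]
      congr 1; ext z
      rw [← prim_diff hGm hG0 hGM hGr hG1 (x - z) hh]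
      have : x + (h, 0) - z = x - z + (h, 0) := by abel
      rw [this]; ring
    have e4 : ∫ z, ρ z * (2 * ∫ σ in (0:ℝ)..h, G (x - z + (σ, 0)))
        = 2 * ∫ z, ∫ σ in Ioc (0:ℝ) h, ρ z * G (x - z + (σ, 0)) := by
      rw [← integral_const_mul]
      congr 1; ext z
      rw [intervalIntegral.integral_of_le hh, integral_const_mul]
      ring
    have hmeas : Measurable (Function.uncurry fun (z : ℝ × ℝ) (σ : ℝ) =>
        ρ z * G (x - z + (σ, 0))) := by
      apply Measurable.mul
      · exact hρ.continuous.measurable.comp measurable_fst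
      · apply hGm.comp
        fun_prop
    have hint : Integrable (Function.uncurry fun (z : ℝ × ℝ) (σ : ℝ) => ρ z * G (x - z + (σ, 0)))
        ((volume : Measure (ℝ × ℝ)).prod (volume.restrict (Ioc (0:ℝ) h))) := by
      have hρi : Integrable ρ := hρ.continuous.integrable_of_hasCompactSupport hρc
      have hb : Integrable (fun p : (ℝ × ℝ) × ℝ => ρ p.1 * M)
          ((volume : Measure (ℝ × ℝ)).prod (volume.restrict (Ioc (0:ℝ) h))) := by
        have h1 : Integrable (fun _ : ℝ => M) (volume.restrict (Ioc (0:ℝ) h)) :=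
          integrableOn_const (by simp)
        exact hρi.mul_prod h1
      refine hb.mono hmeas.aestronglyMeasurable (Eventually.of_forall fun p => ?_)
      simp only [Function.uncurry, norm_mul]
      gcongr
      rw [Real.norm_eq_abs, abs_of_nonneg (hG0 _)]
      exact (hGM _).trans (le_abs_self _)
    have e5 := integral_integral_swap hint
    rw [e4, e5] at e3
    have e6 : ∫ σ in Ioc (0:ℝ) h, ∫ z, ρ z * G (x - z + (σ, 0))
        = ∫ σ in (0:ℝ)..h, γ (x + (σ, 0)) := by
      rw [intervalIntegral.integral_of_le hh]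
      congr 1; ext σ
      have : γ (x + (σ, 0)) = ∫ z, ρ z * G (x + (σ, 0) - z) := rfl
      rw [this]
      congr 1; ext z
      congr 2
      abel
    rw [e6] at e3
    linarith
  -- derivatives
  have hd1 : HasDerivWithinAt (fun h : ℝ => φ (x + (h, 0))) (fderiv ℝ φ x (1, 0)) (Ici 0) 0 := by
    have hl : HasDerivAt (fun h : ℝ => x + ((h, 0) : ℝ × ℝ)) ((1, 0) : ℝ × ℝ) 0 := by
      have h1 : HasDerivAt (fun h : ℝ => ((h, 0) : ℝ × ℝ)) ((1, 0) : ℝ × ℝ) 0 :=
        (hasDerivAt_id (0:ℝ)).prodMk (hasDerivAt_const (0:ℝ) (0:ℝ))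
      exact h1.const_add x
    have h2 : HasFDerivAt φ (fderiv ℝ φ x) (x + ((0, 0) : ℝ × ℝ)) := by
      have : x + ((0, 0) : ℝ × ℝ) = x := by ext <;> simp
      rw [this]; exact hφd.hasFDerivAt
    exact (h2.comp_hasDerivAt (0:ℝ) hl).hasDerivWithinAt
  have hd2 : HasDerivWithinAt (fun h : ℝ => φ (x + (h, 0))) (2 * γ x) (Ici 0) 0 := by
    have hc : Continuous fun σ : ℝ => γ (x + (σ, 0)) := hγc.comp (by fun_prop)
    have h1 : HasDerivAt (fun h : ℝ => ∫ σ in (0:ℝ)..h, γ (x + (σ, 0))) (γ (x + ((0:ℝ), (0:ℝ)))) 0 :=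
      intervalIntegral.integral_hasDerivAt_right (hc.intervalIntegrable _ _)
        hc.aestronglyMeasurable.stronglyMeasurableAtFilter hc.continuousAt
    have h0 : x + (((0:ℝ), (0:ℝ)) : ℝ × ℝ) = x := by ext <;> simp
    rw [h0] at h1
    have h2 : HasDerivWithinAt (fun h : ℝ => φ x + 2 * ∫ σ in (0:ℝ)..h, γ (x + (σ, 0))) (2 * γ x)
        (Ici 0) 0 := ((h1.const_mul 2).const_add (φ x)).hasDerivWithinAt
    refine h2.congr (fun h hh => hinc h hh) ?_
    exact hinc 0 le_rfl
  exact (uniqueDiffWithinAt_Ici (0:ℝ)).eq_deriv _ hd1 hd2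

/-- approximate calibrating functions -/
lemma approx_field {S : Set (ℝ × ℝ)} (hSf : volume S ≠ ⊤) {ε : ℝ}
    (hε : 0 < ε) :
    ∃ φ : ℝ × ℝ → ℝ, ContDiff ℝ ∞ φ ∧ (∀ x, |φ x| ≤ 1) ∧
      2 * (∫ x in S, G x) - ε ≤ ∫ x in S, fderiv ℝ φ x (1, 0) := by
  have hLI := prim_locInt hGm hG0 hGM hGr hG1
  have hGLI := G_locInt hGm hG0 hGM hGr hG1
  have hM0 : 0 ≤ M := (hG0 0).trans (hGM 0)
  let f : ℕ → ContDiffBump (0 : ℝ × ℝ) := fun i =>
    ⟨1 / ((i : ℝ) + 1), 2 * (1 / ((i : ℝ) + 1)), by positivity, by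
      have : 0 < 1 / ((i : ℝ) + 1) := by positivity
      linarith⟩
  set ρ : ℕ → ℝ × ℝ → ℝ := fun i => (f i).normed volume with hρ
  have hρC : ∀ i, ContDiff ℝ ∞ (ρ i) := fun i => (f i).contDiff_normed
  have hρc : ∀ i, HasCompactSupport (ρ i) := fun i => (f i).hasCompactSupport_normed
  have hρ0 : ∀ i x, 0 ≤ ρ i x := fun i x => (f i).nonneg_normed x
  have hρ1 : ∀ i, ∫ x, ρ i x = 1 := fun i => (f i).integral_normed
  have hρi : ∀ i, Integrable (ρ i) := fun i =>
    (hρC i).continuous.integrable_of_hasCompactSupport (hρc i)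
  have hae : ∀ᵐ x : ℝ × ℝ, Tendsto (fun i => convolution (ρ i) G (ContinuousLinearMap.lsmul ℝ ℝ)
      volume x) atTop (𝓝 (G x)) := by
    apply ContDiffBump.ae_convolution_tendsto_right_of_locallyIntegrable (K := 2)
    · have := (tendsto_one_div_add_atTop_nhds_zero_nat (𝕜 := ℝ)).const_mul 2
      rw [mul_zero] at this
      exact this
    · exact Eventually.of_forall fun i => le_rfl
    · exact hGLI
  have hlim : Tendsto (fun i => ∫ x in S, convolution (ρ i) G (ContinuousLinearMap.lsmul ℝ ℝ)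
      volume x) atTop (𝓝 (∫ x in S, G x)) := by
    apply tendsto_integral_of_dominated_convergence (fun _ => M)
    · intro i
      exact ((hρc i).continuous_convolution_left _ (hρC i).continuous hGLI).aestronglyMeasurable
    · exact integrableOn_const hSf
    · intro i
      refine Eventually.of_forall fun x => ?_
      have e1 : convolution (ρ i) G (ContinuousLinearMap.lsmul ℝ ℝ) volume x
          = ∫ z, ρ i z * G (x - z) := rfl
      rw [e1]
      calc ‖∫ z, ρ i z * G (x - z)‖ ≤ ∫ z, ρ i z * M := by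
            apply norm_integral_le_of_norm_le ((hρi i).mul_const M)
            refine Eventually.of_forall fun z => ?_
            rw [norm_mul, Real.norm_eq_abs, Real.norm_eq_abs, abs_of_nonneg (hρ0 i z),
              abs_of_nonneg (hG0 _)]
            exact mul_le_mul_of_nonneg_left (hGM _) (hρ0 i z)
        _ = M := by rw [integral_mul_const, hρ1 i, one_mul]
    · exact ae_restrict_of_ae hae
  have hev : ∀ᶠ i in atTop, (∫ x in S, G x) - ε / 2 < ∫ x in S, convolution (ρ i) G
      (ContinuousLinearMap.lsmul ℝ ℝ) volume x :=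
    hlim.eventually (lt_mem_nhds (by linarith))
  obtain ⟨i, hi⟩ := hev.exists
  refine ⟨convolution (ρ i) (prim G) (ContinuousLinearMap.lsmul ℝ ℝ) volume,
    (hρc i).contDiff_convolution_left _ (hρC i) hLI, ?_, ?_⟩
  · intro x
    have e1 : convolution (ρ i) (prim G) (ContinuousLinearMap.lsmul ℝ ℝ) volume x
        = ∫ z, ρ i z * prim G (x - z) := rfl
    rw [e1, ← Real.norm_eq_abs, ← hρ1 i]
    apply norm_integral_le_of_norm_le (hρi i)
    refine Eventually.of_forall fun z => ?_
    rw [norm_mul, Real.norm_eq_abs, Real.norm_eq_abs, abs_of_nonneg (hρ0 i z)]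
    have h1 : |prim G (x - z)| ≤ 1 := abs_le.2 (prim_bounds hGm hG0 hGM hGr hG1 _)
    have := mul_le_mul_of_nonneg_left h1 (hρ0 i z)
    linarith
  · have e2 : ∀ x, fderiv ℝ (convolution (ρ i) (prim G) (ContinuousLinearMap.lsmul ℝ ℝ) volume) x
        (1, 0) = 2 * convolution (ρ i) G (ContinuousLinearMap.lsmul ℝ ℝ) volume x := fun x =>
      conv_deriv hGm hG0 hGM hGr hG1 (ρ i) (hρC i) (hρc i) x
    simp only [e2]
    rw [integral_const_mul]
    linarith

end

end H25Ani
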