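import Mathlib
import Pool.Agent.H25.AniA
open MeasureTheory Filter Topology Set
open scoped ContDiff

namespace H25Ani

/-- length of the horizontal slice -/
noncomputable def hsl (S : Set (ℝ × ℝ)) (t : ℝ) : ℝ := ∫ σ, S.indicator (fun _ => (1:ℝ)) (σ, t)

section
variable {S : Set (ℝ × ℝ)} (hS : MeasurableSet S) {r : ℝ}
  (hSr : ∀ x ∈ S, |x.1| ≤ r ∧ |x.2| ≤ r)
include hS hSr
set_option linter.unusedSectionVars false

lemma ind_int (t : ℝ) : Integrable fun σ => S.indicator (fun _ => (1:ℝ)) (σ, t) := by
  have h1 : IntegrableOn (fun σ => S.indicator (fun _ => (1:ℝ)) (σ, t)) (Icc (-r) r) := by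
    refine Measure.integrableOn_of_bounded (M := 1) (by simp) ?_ ?_
    · exact ((measurable_const.indicator hS).comp
        (measurable_id.prodMk measurable_const)).aestronglyMeasurable
    · refine Eventually.of_forall fun σ => ?_
      simp only [indicator]
      split_ifs <;> simp
  rw [← integrableOn_univ]
  refine h1.of_forall_sdiff_eq_zero MeasurableSet.univ fun σ hσ => ?_
  rw [indicator_of_notMem]
  intro h
  exact hσ.2 (abs_le.1 (hSr _ h).1)

lemma hsl_meas : Measurable (hsl S) := by
  unfold hsl
  have h : StronglyMeasurable (Function.uncurry fun (t : ℝ) (σ : ℝ) =>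
      S.indicator (fun _ => (1:ℝ)) (σ, t)) := by
    apply Measurable.stronglyMeasurable
    exact (measurable_const.indicator hS).comp measurable_swap
  exact h.integral_prod_right.measurable

lemma hsl_nonneg (t : ℝ) : 0 ≤ hsl S t :=
  integral_nonneg fun σ => indicator_nonneg (fun _ _ => zero_le_one) _

lemma hsl_zero {t : ℝ} (ht : r < |t|) : hsl S t = 0 := by
  unfold hsl
  have : (fun σ => S.indicator (fun _ => (1:ℝ)) (σ, t)) = fun _ => 0 := by
    ext σ
    rw [indicator_of_notMem]
    intro h
    exact absurd (hSr _ h).2 (not_le.2 ht)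
  rw [this]; simp

/-- near optimal field in the first direction -/
lemma dir_field {ε : ℝ} (hε : 0 < ε) :
    ∃ φ : ℝ × ℝ → ℝ, ContDiff ℝ ∞ φ ∧ (∀ x, |φ x| ≤ 1) ∧
      2 * (volume {t | 0 < hsl S t}).toReal - ε ≤ ∫ x in S, fderiv ℝ φ x (1, 0) := by
  have hmm := hsl_meas hS hSr
  have hm0 := hsl_nonneg hS hSr
  set Tset : Set ℝ := {t | 0 < hsl S t} with hT
  have hTm : MeasurableSet Tset := measurableSet_lt measurable_const hmm
  have hTsub : Tset ⊆ Icc (-r) r := by
    intro t ht
    by_contra hcon
    have : r < |t| := by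
      by_contra h
      push Not at h
      exact hcon (abs_le.1 h)
    have h0 := hsl_zero hS hSr this
    rw [hT, mem_ofPred_eq, h0] at ht
    exact lt_irrefl _ ht
  -- the truncated densities
  set G : ℕ → ℝ × ℝ → ℝ := fun k x =>
    S.indicator (fun _ => (1:ℝ)) x / max (hsl S x.2) (1 / ((k:ℝ) + 1)) with hG
  have hmaxpos : ∀ k (t : ℝ), 0 < max (hsl S t) (1 / ((k:ℕ) + 1 : ℝ)) := fun k t =>
    lt_of_lt_of_le (by positivity) (le_max_right _ _)
  have hGm : ∀ k, Measurable (G k) := fun k =>
    (measurable_const.indicator hS).div ((hmm.comp measurable_snd).max measurable_const)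
  have hG0 : ∀ k x, 0 ≤ G k x := fun k x =>
    div_nonneg (indicator_nonneg (fun _ _ => zero_le_one) _) (hmaxpos k _).le
  have hGM : ∀ k x, G k x ≤ (k:ℝ) + 1 := by
    intro k x
    simp only [hG]
    rw [div_le_iff₀ (hmaxpos k _)]
    have h1 : S.indicator (fun _ => (1:ℝ)) x ≤ 1 := by
      simp only [indicator]; split_ifs <;> simp
    have h2 : (1:ℝ) = ((k:ℝ) + 1) * (1 / ((k:ℝ) + 1)) := by field_simp
    calc S.indicator (fun _ => (1:ℝ)) x ≤ ((k:ℝ) + 1) * (1 / ((k:ℝ) + 1)) := by rw [← h2]; exact h1
      _ ≤ _ := by gcongr; exact le_max_right _ _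
  have hGr : ∀ k, ∀ x : ℝ × ℝ, r < |x.1| ∨ r < |x.2| → G k x = 0 := by
    intro k x hx
    simp only [hG]
    rw [indicator_of_notMem, zero_div]
    intro h
    have := hSr x h
    rcases hx with hx | hx
    · exact absurd this.1 (not_le.2 hx)
    · exact absurd this.2 (not_le.2 hx)
  have hGs : ∀ k t, ∫ σ, G k (σ, t) = hsl S t / max (hsl S t) (1 / ((k:ℝ) + 1)) := by
    intro k t
    simp only [hG]
    rw [integral_div]; rfl
  have hG1 : ∀ k t, ∫ σ, G k (σ, t) ≤ 1 := by
    intro k t
    rw [hGs, div_le_one (hmaxpos k t)]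
    exact le_max_left _ _
  have hSf : volume S ≠ ⊤ := by
    have : S ⊆ Icc (-r) r ×ˢ Icc (-r) r := fun x hx => by
      have := hSr x hx
      exact ⟨abs_le.1 this.1, abs_le.1 this.2⟩
    refine ne_top_of_le_ne_top ?_ (measure_mono this)
    rw [Measure.volume_eq_prod, Measure.prod_prod]
    exact ENNReal.mul_ne_top (by simp) (by simp)
  -- the integrals
  have hint : ∀ k, ∫ x in S, G k x = ∫ t, hsl S t / max (hsl S t) (1 / ((k:ℝ) + 1)) := by
    intro k
    have h1 : ∫ x in S, G k x = ∫ x, G k x := by
      apply setIntegral_eq_integral_of_forall_compl_eq_zero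
      intro x hx
      simp only [hG]
      rw [indicator_of_notMem hx, zero_div]
    have h2 : Integrable (G k) := by
      rw [← integrableOn_univ]
      have h3 : IntegrableOn (G k) S := by
        refine Measure.integrableOn_of_bounded (M := (k:ℝ) + 1) hSf
          (hGm k).aestronglyMeasurable (Eventually.of_forall fun x => ?_)
        rw [Real.norm_eq_abs, abs_of_nonneg (hG0 k x)]; exact hGM k x
      refine h3.of_forall_sdiff_eq_zero MeasurableSet.univ fun x hx => ?_
      simp only [hG]
      rw [indicator_of_notMem hx.2, zero_div]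
    rw [h1, Measure.volume_eq_prod, ← integral_prod_swap, integral_prod]
    · congr 1; ext t
      exact hGs k t
    · rw [Measure.volume_eq_prod] at h2
      exact h2.swap
  have hlim : Tendsto (fun k : ℕ => ∫ t, hsl S t / max (hsl S t) (1 / ((k:ℝ) + 1))) atTop
      (𝓝 (∫ t, Tset.indicator (fun _ => (1:ℝ)) t)) := by
    apply tendsto_integral_of_dominated_convergence ((Icc (-r) r).indicator fun _ => (1:ℝ))
    · intro k
      exact (hmm.div (hmm.max measurable_const)).aestronglyMeasurable
    · exact (integrable_indicator_iff measurableSet_Icc).2 (integrableOn_const (by simp))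
    · intro k
      refine Eventually.of_forall fun t => ?_
      rw [Real.norm_eq_abs, abs_of_nonneg (div_nonneg (hm0 t) (hmaxpos k t).le)]
      by_cases h : t ∈ Icc (-r) r
      · rw [indicator_of_mem h, div_le_one (hmaxpos k t)]
        exact le_max_left _ _
      · rw [indicator_of_notMem h]
        have : r < |t| := by
          by_contra hh
          push Not at hh
          exact h (abs_le.1 hh)
        rw [hsl_zero hS hSr this, zero_div]
    · refine Eventually.of_forall fun t => ?_
      by_cases h : t ∈ Tset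
      · rw [indicator_of_mem h]
        have hpos : 0 < hsl S t := h
        have h1 : ∀ᶠ k : ℕ in atTop, (1:ℝ) = hsl S t / max (hsl S t) (1 / ((k:ℝ) + 1)) := by
          have h2 := (tendsto_one_div_add_atTop_nhds_zero_nat (𝕜 := ℝ)).eventually (gt_mem_nhds hpos)
          filter_upwards [h2] with k hk
          rw [max_eq_left hk.le, div_self hpos.ne']
        exact Tendsto.congr' h1 tendsto_const_nhds
      · rw [indicator_of_notMem h]
        have h0 : hsl S t = 0 := le_antisymm (not_lt.1 h) (hm0 t)
        simp only [h0, zero_div]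
        exact tendsto_const_nhds
  have hT1 : ∫ t, Tset.indicator (fun _ => (1:ℝ)) t = (volume Tset).toReal := by
    rw [integral_indicator hTm, setIntegral_const, smul_eq_mul, mul_one]; rfl
  rw [hT1] at hlim
  obtain ⟨k, hk⟩ := (hlim.eventually (lt_mem_nhds
    (show (volume Tset).toReal - ε / 4 < (volume Tset).toReal by linarith))).exists
  obtain ⟨φ, hφ1, hφ2, hφ3⟩ := approx_field (hGm k) (hG0 k) (hGM k) (hGr k) (hG1 k) hSf
    (show 0 < ε / 2 by positivity)
  refine ⟨φ, hφ1, hφ2, ?_⟩
  rw [hint k] at hφ3
  linarith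

end

end H25Ani
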