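import Mathlib

/-!
Definitions for the anisotropic Cheeger functional of the disk.
-/

open MeasureTheory Set
open scoped ContDiff ENNReal

namespace H25Ani

/-- The plane. -/
abbrev V2 := EuclideanSpace ℝ (Fin 2)

/-- The divergence of a planar vector field. -/
noncomputable def div (φ : V2 → V2) (x : V2) : ℝ :=
  ∑ i, (fderiv ℝ φ x (EuclideanSpace.single i 1)) i

/-- The admissible fields: `C¹`, compactly supported, with values in the closure of `K`. -/
def Fields (K : Set V2) : Set (V2 → V2) :=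
  {φ | ContDiff ℝ 1 φ ∧ HasCompactSupport φ ∧ ∀ x, φ x ∈ closure K}

/-- The anisotropic perimeter `P_K(E)`, in its (distributional) dual form
`sup {∫_E div φ : φ ∈ C¹_c(ℝ²; closure K)}`, with values in `[0, ∞]`. -/
noncomputable def per (K E : Set V2) : ℝ≥0∞ :=
  ⨆ φ ∈ Fields K, ENNReal.ofReal (∫ x in E, div φ x)

/-- The polar norm `Φ_K°(x) = sup {x · y : y ∈ K}`. -/
noncomputable def polarNorm (K : Set V2) (x : V2) : ℝ := sSup ((fun y => inner ℝ x y) '' K)

/-- The polar set `K° = {x : Φ_K°(x) < 1}`. -/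
def polarSet (K : Set V2) : Set V2 := {x | polarNorm K x < 1}

/-- The anisotropic Cheeger constant `h_K(Ω) = inf {P_K(E)/|E| : E ⊆ Ω, |E| > 0}`. -/
noncomputable def cheeger (K Ω : Set V2) : ℝ≥0∞ :=
  ⨅ E ∈ {E : Set V2 | MeasurableSet E ∧ E ⊆ Ω ∧ volume E ≠ 0}, per K E / volume E

/-- The functional `J_B[K] = h_K(B) |K°|^(1/2)`, `B` being the open unit disk. -/
noncomputable def JJ (K : Set V2) : ℝ≥0∞ :=
  cheeger K (Metric.ball 0 1) * volume (polarSet K) ^ (1 / 2 : ℝ)

/-- The class `𝒦₂`: nonempty, open, bounded, convex, centrally symmetric planar sets. -/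
def SymConvex (K : Set V2) : Prop :=
  K.Nonempty ∧ IsOpen K ∧ Bornology.IsBounded K ∧ Convex ℝ K ∧ ∀ x ∈ K, -x ∈ K

/-- The class `𝒫_n`: members of `𝒦₂` whose closure has exactly `n` extreme points (i.e. convex
polygons with exactly `n` vertices, equivalently exactly `n` sides). -/
def IsGon (n : ℕ) (K : Set V2) : Prop :=
  SymConvex K ∧ (extremePoints ℝ (closure K)).encard = n

/-- The regular `n`-gon circumscribed about the unit disk: the intersection of the half planes
`x · (cos (2πk/n), sin (2πk/n)) < 1`. -/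
noncomputable def regGon (n : ℕ) : Set V2 :=
  {x | ∀ k : ℕ, x 0 * Real.cos (2 * Real.pi * k / n) + x 1 * Real.sin (2 * Real.pi * k / n) < 1}

end H25Ani
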