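import Mathlib
import Pool.Agent.H25.AniB
import Pool.Agent.H25.AniDefs
open MeasureTheory Filter Topology Set
open scoped ContDiff ENNReal

namespace H25Ani

def det2 (a b : V2) : ℝ := a 0 * b 1 - a 1 * b 0

/-- affine coordinates -/
noncomputable def mk (a b : V2) (p : ℝ × ℝ) : V2 := p.1 • a + p.2 • b

noncomputable def inv (a b : V2) (x : V2) : ℝ × ℝ :=
  ((x 0 * b 1 - x 1 * b 0) / det2 a b, (a 0 * x 1 - a 1 * x 0) / det2 a b)

lemma mk_inv {a b : V2} (h : det2 a b ≠ 0) (x : V2) : mk a b (inv a b x) = x := by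
  unfold mk inv
  ext i
  fin_cases i
  · simp only [Fin.zero_eta, PiLp.add_apply, PiLp.smul_apply, smul_eq_mul]
    rw [div_mul_eq_mul_div, div_mul_eq_mul_div, ← add_div, div_eq_iff h, det2]; ring
  · simp only [Fin.mk_one, PiLp.add_apply, PiLp.smul_apply, smul_eq_mul]
    rw [div_mul_eq_mul_div, div_mul_eq_mul_div, ← add_div, div_eq_iff h, det2]; ring

lemma inv_mk {a b : V2} (h : det2 a b ≠ 0) (p : ℝ × ℝ) : inv a b (mk a b p) = p := by
  unfold mk inv
  ext
  · simp only [PiLp.add_apply, PiLp.smul_apply, smul_eq_mul]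
    rw [div_eq_iff h, det2]; ring
  · simp only [PiLp.add_apply, PiLp.smul_apply, smul_eq_mul]
    rw [div_eq_iff h, det2]; ring

lemma mk_cont (a b : V2) : Continuous (mk a b) := by unfold mk; fun_prop
lemma inv_cont (a b : V2) : Continuous (inv a b) := by
  unfold inv
  have h : ∀ i, Continuous fun x : V2 => x i := fun i => by fun_prop
  fun_prop

/-- the change of variables -/
lemma map_mk {a b : V2} (h : det2 a b ≠ 0) :
    Measure.map (mk a b) (volume : Measure (ℝ × ℝ)) = ENNReal.ofReal (|det2 a b|⁻¹) • volume := by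
  set M : Matrix (Fin 2) (Fin 2) ℝ := !![a 0, b 0; a 1, b 1] with hM
  have hdet : M.det = det2 a b := by rw [hM, Matrix.det_fin_two_of, det2]; ring
  have hne : M.det ≠ 0 := by rw [hdet]; exact h
  have e1 : mk a b = (WithLp.toLp 2) ∘ (Matrix.toLin' M) ∘ (MeasurableEquiv.finTwoArrow (α := ℝ)).symm := by
    ext p i
    simp only [mk, Function.comp_apply, Matrix.toLin'_apply]
    fin_cases i
    · simp [hM, MeasurableEquiv.finTwoArrow, Matrix.mulVec, dotProduct, Fin.sum_univ_two]; ring
    · simp [hM, MeasurableEquiv.finTwoArrow, Matrix.mulVec, dotProduct, Fin.sum_univ_two]; ring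
  have m1 : Measurable (Matrix.toLin' M) := (Matrix.toLin' M).continuous_of_finiteDimensional.measurable
  rw [e1, ← Measure.map_map (PiLp.volume_preserving_toLp (Fin 2)).measurable
      (m1.comp (MeasurableEquiv.measurable _)),
    ← Measure.map_map m1 (MeasurableEquiv.measurable _),
    (volume_preserving_finTwoArrow ℝ).symm.map_eq, Real.map_matrix_volume_pi_eq_smul_volume_pi hne,
    Measure.map_smul, (PiLp.volume_preserving_toLp (Fin 2)).map_eq, hdet, abs_inv]

lemma vol_mk {a b : V2} (h : det2 a b ≠ 0) {E : Set V2} (hE : MeasurableSet E) :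
    volume (mk a b ⁻¹' E) = ENNReal.ofReal (|det2 a b|⁻¹) * volume E := by
  rw [← Measure.map_apply (mk_cont a b).measurable hE, map_mk h, Measure.smul_apply, smul_eq_mul]

lemma int_mk {a b : V2} (h : det2 a b ≠ 0) (E : Set V2) (f : V2 → ℝ) :
    ∫ p in mk a b ⁻¹' E, f (mk a b p) = |det2 a b|⁻¹ * ∫ x in E, f x := by
  have hemb : MeasurableEmbedding (mk a b) := by
    let e : ℝ × ℝ ≃ₜ V2 :=
      { toFun := mk a b, invFun := inv a b, left_inv := inv_mk h, right_inv := mk_inv h,
        continuous_toFun := mk_cont a b, continuous_invFun := inv_cont a b }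
    exact e.measurableEmbedding
  rw [← hemb.setIntegral_map, map_mk h, Measure.restrict_smul, integral_smul_measure,
    ENNReal.toReal_ofReal (by positivity), smul_eq_mul]

lemma lin_expand (g : V2 →L[ℝ] ℝ) (a : V2) :
    g a = a 0 * g (EuclideanSpace.single 0 1) + a 1 * g (EuclideanSpace.single 1 1) := by
  have ea : a = a 0 • EuclideanSpace.single 0 1 + a 1 • EuclideanSpace.single 1 1 := by
    ext i; fin_cases i <;> simp
  conv_lhs => rw [ea]
  rw [map_add, map_smul, map_smul]; rfl

/-- divergence of the fields in affine coordinates -/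
lemma div_field {a b : V2} (h : det2 a b ≠ 0) {φ1 φ2 : ℝ × ℝ → ℝ} (h1 : Differentiable ℝ φ1)
    (h2 : Differentiable ℝ φ2) (x : V2) :
    div (fun x => φ1 (inv a b x) • a + φ2 (inv a b x) • b) x
      = fderiv ℝ φ1 (inv a b x) (1, 0) + fderiv ℝ φ2 (inv a b x) (0, 1) := by
  -- the inverse as a linear map
  let c : Fin 2 → V2 →L[ℝ] ℝ := fun i => EuclideanSpace.proj i
  let J : V2 →L[ℝ] ℝ × ℝ :=
    ((det2 a b)⁻¹ • (b 1 • c 0 - b 0 • c 1)).prod ((det2 a b)⁻¹ • (a 0 • c 1 - a 1 • c 0))
  have hJ : ∀ x, inv a b x = J x := by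
    intro x
    simp only [J, c, inv]
    ext
    · simp; ring
    · simp; ring
  have hJa : J a = (1, 0) := by
    rw [← hJ]
    have := inv_mk h (1, 0)
    simpa [mk] using this
  have hJb : J b = (0, 1) := by
    rw [← hJ]
    have := inv_mk h (0, 1)
    simpa [mk] using this
  have hi : HasFDerivAt (inv a b) J x := by
    have : inv a b = J := by ext1 x; exact hJ x
    rw [this]; exact J.hasFDerivAt
  have hg1 : HasFDerivAt (fun x => φ1 (inv a b x)) ((fderiv ℝ φ1 (inv a b x)).comp J) x :=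
    (h1 _).hasFDerivAt.comp x hi
  have hg2 : HasFDerivAt (fun x => φ2 (inv a b x)) ((fderiv ℝ φ2 (inv a b x)).comp J) x :=
    (h2 _).hasFDerivAt.comp x hi
  have hF := (hg1.smul_const a).add (hg2.smul_const b)
  unfold div
  have hFd : fderiv ℝ (fun x => φ1 (inv a b x) • a + φ2 (inv a b x) • b) x = _ := hF.fderiv
  rw [hFd]
  simp only [_root_.add_apply, ContinuousLinearMap.smulRight_apply, PiLp.add_apply,
    PiLp.smul_apply, smul_eq_mul, ContinuousLinearMap.comp_apply]
  have k1 : fderiv ℝ φ1 (inv a b x) (1, 0)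
      = a 0 * fderiv ℝ φ1 (inv a b x) (J (EuclideanSpace.single 0 1))
        + a 1 * fderiv ℝ φ1 (inv a b x) (J (EuclideanSpace.single 1 1)) := by
    rw [← hJa]
    exact lin_expand ((fderiv ℝ φ1 (inv a b x)).comp J) a
  have k2 : fderiv ℝ φ2 (inv a b x) (0, 1)
      = b 0 * fderiv ℝ φ2 (inv a b x) (J (EuclideanSpace.single 0 1))
        + b 1 * fderiv ℝ φ2 (inv a b x) (J (EuclideanSpace.single 1 1)) := by
    rw [← hJb]
    exact lin_expand ((fderiv ℝ φ2 (inv a b x)).comp J) b
  rw [k1, k2, Fin.sum_univ_two]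
  ring

end H25Ani
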