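import Mathlib
import Pool.Agent.H25.AniC
open MeasureTheory Filter Topology Set
open scoped ContDiff ENNReal

namespace H25Ani

/-- a lower bound for all `X - ε` gives a lower bound for `X` -/
lemma ofReal_le_of_forall {X : ℝ} {P : ℝ≥0∞} (h : ∀ ε : ℝ, 0 < ε → ENNReal.ofReal (X - ε) ≤ P) :
    ENNReal.ofReal X ≤ P := by
  have hlim : Tendsto (fun k : ℕ => ENNReal.ofReal (X - 1 / ((k : ℝ) + 1))) atTop
      (𝓝 (ENNReal.ofReal (X - 0))) := by
    apply ENNReal.tendsto_ofReal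
    exact tendsto_const_nhds.sub tendsto_one_div_add_atTop_nhds_zero_nat
  rw [sub_zero] at hlim
  exact le_of_tendsto' hlim fun k => h _ (by positivity)

lemma le_per {K E : Set V2} {φ : V2 → V2} (hφ : φ ∈ Fields K) :
    ENNReal.ofReal (∫ x in E, div φ x) ≤ per K E :=
  le_iSup₂ (f := fun (φ : V2 → V2) (_ : φ ∈ Fields K) => ENNReal.ofReal (∫ x in E, div φ x)) φ hφ

/-- extents of a planar set in affine coordinates -/
noncomputable def ext1 (S : Set (ℝ × ℝ)) : ℝ := (volume {t | 0 < hsl S t}).toReal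
noncomputable def ext2 (S : Set (ℝ × ℝ)) : ℝ := (volume {t | 0 < hsl (Prod.swap ⁻¹' S) t}).toReal

lemma exists_radius (a b : V2) {E : Set V2} (h : det2 a b ≠ 0) (hEB : E ⊆ Metric.ball 0 1) :
    ∃ r : ℝ, 0 ≤ r ∧ ∀ p ∈ mk a b ⁻¹' E, |p.1| ≤ r ∧ |p.2| ≤ r := by
  obtain ⟨r, hr⟩ := ((isCompact_closedBall (0 : V2) 1).image (inv_cont a b)).isBounded.exists_norm_le
  refine ⟨max r 0, le_max_right _ _, fun p hp => ?_⟩
  have h1 : mk a b p ∈ Metric.closedBall (0 : V2) 1 := Metric.ball_subset_closedBall (hEB hp)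
  have h2 := hr p ⟨mk a b p, h1, inv_mk h p⟩
  rw [Prod.norm_def] at h2
  have h3 := (le_max_left ‖p.1‖ ‖p.2‖).trans h2
  have h4 := (le_max_right ‖p.1‖ ‖p.2‖).trans h2
  exact ⟨h3.trans (le_max_left _ _), h4.trans (le_max_left _ _)⟩

lemma per_lower {a b : V2} (h : det2 a b ≠ 0) {K : Set V2}
    (hK : ∀ s t : ℝ, |s| ≤ 1 → |t| ≤ 1 → s • a + t • b ∈ closure K) {E : Set V2}
    (hE : MeasurableSet E) (hEB : E ⊆ Metric.ball 0 1) :
    ENNReal.ofReal (2 * |det2 a b| * (ext1 (mk a b ⁻¹' E) + ext2 (mk a b ⁻¹' E))) ≤ per K E := by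
  apply ofReal_le_of_forall
  intro ε hε
  set S := mk a b ⁻¹' E with hS
  have hSm : MeasurableSet S := (mk_cont a b).measurable hE
  obtain ⟨r, hr, hSr⟩ := exists_radius a b h hEB
  have hD : 0 < |det2 a b| := abs_pos.2 h
  set D := |det2 a b| with hDdef
  have hε' : 0 < ε / (2 * D) := by positivity
  obtain ⟨φ1, hφ1, hφ1b, hφ1i⟩ := dir_field hSm hSr hε'
  have hSm' : MeasurableSet (Prod.swap ⁻¹' S) := measurable_swap hSm
  obtain ⟨φ2', hφ2', hφ2b', hφ2i'⟩ := dir_field hSm'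
    (fun x hx => ⟨(hSr _ hx).2, (hSr _ hx).1⟩) hε'
  set φ2 : ℝ × ℝ → ℝ := fun p => φ2' p.swap with hφ2def
  have hφ2 : ContDiff ℝ ∞ φ2 := hφ2'.comp (contDiff_snd.prodMk contDiff_fst)
  have hd1 : Differentiable ℝ φ1 := hφ1.differentiable (by norm_num)
  have hd2' : Differentiable ℝ φ2' := hφ2'.differentiable (by norm_num)
  have hd2 : Differentiable ℝ φ2 := hφ2.differentiable (by norm_num)
  have hfd2 : ∀ p, fderiv ℝ φ2 p (0, 1) = fderiv ℝ φ2' p.swap (1, 0) := by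
    intro p
    have hsw : HasFDerivAt (Prod.swap : ℝ × ℝ → ℝ × ℝ)
        ((ContinuousLinearMap.snd ℝ ℝ ℝ).prod (ContinuousLinearMap.fst ℝ ℝ ℝ)) p :=
      hasFDerivAt_snd.prodMk hasFDerivAt_fst
    have h1 : HasFDerivAt φ2 _ p := (hd2' p.swap).hasFDerivAt.comp p hsw
    rw [h1.fderiv]
    simp
  -- the cut off
  let χ : ContDiffBump (0 : V2) := ⟨1, 2, by norm_num, by norm_num⟩
  have hχ1 : ContDiff ℝ 1 χ := χ.contDiff
  set ψ : V2 → V2 := fun x => φ1 (inv a b x) • a + φ2 (inv a b x) • b with hψ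
  set Φ : V2 → V2 := fun x => χ x • ψ x with hΦ
  have hinvC : ContDiff ℝ 1 (inv a b) := by
    unfold inv
    have hc : ∀ i, ContDiff ℝ 1 fun x : V2 => x i := fun i =>
      (EuclideanSpace.proj (𝕜 := ℝ) i).contDiff
    exact ((((hc 0).mul contDiff_const).sub ((hc 1).mul contDiff_const)).div_const _).prodMk
      (((contDiff_const.mul (hc 1)).sub (contDiff_const.mul (hc 0))).div_const _)
  have hψC : ContDiff ℝ 1 ψ :=
    (((hφ1.of_le (by norm_cast)).comp hinvC).smul contDiff_const).add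
      (((hφ2.of_le (by norm_cast)).comp hinvC).smul contDiff_const)
  have hΦF : Φ ∈ Fields K := by
    refine ⟨hχ1.smul hψC, χ.hasCompactSupport.smul_right, fun x => ?_⟩
    have e : Φ x = (χ x * φ1 (inv a b x)) • a + (χ x * φ2 (inv a b x)) • b := by
      simp only [hΦ, hψ, smul_add, smul_smul]
    rw [e]
    apply hK
    · rw [abs_mul, abs_of_nonneg χ.nonneg]
      exact mul_le_one₀ χ.le_one (abs_nonneg _) (hφ1b _)
    · rw [abs_mul, abs_of_nonneg χ.nonneg]
      exact mul_le_one₀ χ.le_one (abs_nonneg _) (hφ2b' _)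
  refine le_trans (ENNReal.ofReal_le_ofReal ?_) (le_per hΦF)
  -- the divergence on `E`
  have hdiv : ∀ x ∈ E, div Φ x = fderiv ℝ φ1 (inv a b x) (1, 0) + fderiv ℝ φ2 (inv a b x) (0, 1) := by
    intro x hx
    have hev : Φ =ᶠ[𝓝 x] ψ := by
      filter_upwards [Metric.isOpen_ball.mem_nhds (hEB hx)] with y hy
      have : χ y = 1 := χ.one_of_mem_closedBall (Metric.ball_subset_closedBall hy)
      simp only [hΦ, this, one_smul]
    rw [← div_field h hd1 hd2 x]
    unfold div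
    rw [hev.fderiv_eq]
  rw [setIntegral_congr_fun hE hdiv]
  have e1 : ∫ x in E, (fderiv ℝ φ1 (inv a b x) (1, 0) + fderiv ℝ φ2 (inv a b x) (0, 1))
      = D * ∫ p in S, (fderiv ℝ φ1 p (1, 0) + fderiv ℝ φ2 p (0, 1)) := by
    have := int_mk h E (fun x => fderiv ℝ φ1 (inv a b x) (1, 0) + fderiv ℝ φ2 (inv a b x) (0, 1))
    simp only [inv_mk h] at this
    rw [this, ← mul_assoc, mul_inv_cancel₀ hD.ne', one_mul]
  have hSf : volume S ≠ ⊤ := by
    have : S ⊆ Icc (-r) r ×ˢ Icc (-r) r := fun x hx => by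
      have := hSr x hx
      exact ⟨abs_le.1 this.1, abs_le.1 this.2⟩
    refine ne_top_of_le_ne_top ?_ (measure_mono this)
    rw [Measure.volume_eq_prod, Measure.prod_prod]
    exact ENNReal.mul_ne_top (by simp) (by simp)
  have hSb : S ⊆ Icc (-r) r ×ˢ Icc (-r) r := fun x hx => by
    have := hSr x hx
    exact ⟨abs_le.1 this.1, abs_le.1 this.2⟩
  have hcomp : IsCompact (Icc (-r) r ×ˢ Icc (-r) r) := isCompact_Icc.prod isCompact_Icc
  have hi : ∀ (φ : ℝ × ℝ → ℝ) (v : ℝ × ℝ), ContDiff ℝ ∞ φ →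
      IntegrableOn (fun p => fderiv ℝ φ p v) S := by
    intro φ v hφ
    have hc : Continuous fun p => fderiv ℝ φ p v :=
      (hφ.continuous_fderiv (by norm_num)).clm_apply continuous_const
    exact (hc.continuousOn.integrableOn_compact hcomp).mono_set hSb
  rw [e1, integral_add (hi φ1 _ hφ1) (hi φ2 _ hφ2)]
  have e2 : ∫ p in S, fderiv ℝ φ2 p (0, 1) = ∫ p in Prod.swap ⁻¹' S, fderiv ℝ φ2' p (1, 0) := by
    simp only [hfd2]
    have hmp : MeasurePreserving (Prod.swap : ℝ × ℝ → ℝ × ℝ) volume volume := by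
      rw [Measure.volume_eq_prod]; exact Measure.measurePreserving_swap
    have hemb : MeasurableEmbedding (Prod.swap : ℝ × ℝ → ℝ × ℝ) :=
      MeasurableEquiv.prodComm.measurableEmbedding
    have := hmp.setIntegral_preimage_emb hemb (fun p => fderiv ℝ φ2' p.swap (1, 0)) S
    rw [← this]
    simp
  rw [e2]
  have e3 : 2 * D * (ext1 S + ext2 S) - ε
      = D * ((2 * ext1 S - ε / (2 * D)) + (2 * ext2 S - ε / (2 * D))) := by
    field_simp; ring
  rw [e3]
  apply mul_le_mul_of_nonneg_left _ hD.le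
  exact add_le_add hφ1i hφ2i'

end H25Ani
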