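import Mathlib
import Pool.Agent.H25.AniD
open MeasureTheory Filter Topology Set
open scoped ContDiff ENNReal

namespace H25Ani

/-- bathtub inequality -/
lemma bathtub {g : ℝ → ℝ} (hgm : Measurable g) (hg0 : ∀ t, 0 ≤ g t) {M : ℝ} (hgM : ∀ t, g t ≤ M)
    (hge : ∀ t, g (-t) = g t) (hga : ∀ s t, 0 ≤ s → s ≤ t → g t ≤ g s) {Z : Set ℝ}
    (hZ : MeasurableSet Z) {T : ℝ} (hT : 0 ≤ T) (hZT : volume Z = ENNReal.ofReal T) :
    ∫ t in Z, g t ≤ ∫ t in (-(T / 2))..(T / 2), g t := by
  set c := g (T / 2) with hc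
  set I := Ioc (-(T / 2)) (T / 2) with hI
  have hIm : MeasurableSet I := measurableSet_Ioc
  have hgabs : ∀ t, g t = g |t| := by
    intro t
    rcases le_total 0 t with h | h
    · rw [abs_of_nonneg h]
    · rw [abs_of_nonpos h, hge]
  have hin : ∀ t ∈ I, c ≤ g t := by
    intro t ht
    rw [hgabs t]
    exact hga _ _ (abs_nonneg _) (abs_le.2 ⟨ht.1.le, ht.2⟩)
  have hout : ∀ t, t ∉ I → g t ≤ c := by
    intro t ht
    rw [hgabs t]
    apply hga _ _ (by positivity)
    by_contra hcon
    push Not at hcon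
    have := abs_lt.1 hcon
    exact ht ⟨this.1, this.2.le⟩
  have hfin : ∀ A : Set ℝ, volume A ≠ ⊤ → ∀ f : ℝ → ℝ, Measurable f → (∀ t, |f t| ≤ M + |c|) →
      IntegrableOn f A := by
    intro A hA f hf hb
    exact Measure.integrableOn_of_bounded hA hf.aestronglyMeasurable
      (Eventually.of_forall fun t => by rw [Real.norm_eq_abs]; exact hb t)
  have hZf : volume Z ≠ ⊤ := by rw [hZT]; exact ENNReal.ofReal_ne_top
  have hIf : volume I ≠ ⊤ := by rw [hI]; simp
  have hIT : volume I = ENNReal.ofReal T := by rw [hI, Real.volume_Ioc]; congr 1; ring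
  have hbg : ∀ t, |g t| ≤ M + |c| := fun t => by
    rw [abs_of_nonneg (hg0 t)]; have := hgM t; have := abs_nonneg c; linarith
  have hbc : ∀ t : ℝ, |c| ≤ M + |c| := fun t => by
    have := (hg0 0).trans (hgM 0); linarith
  set k : ℝ → ℝ := fun t => max (g t - c) 0 with hk
  have hkm : Measurable k := (hgm.sub measurable_const).max measurable_const
  have hk0 : ∀ t, 0 ≤ k t := fun t => le_max_right _ _
  have hkb : ∀ t, |k t| ≤ M + |c| := fun t => by
    rw [abs_of_nonneg (hk0 t)]
    apply max_le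
    · have := hgM t; have := neg_abs_le c; linarith
    · have := (hg0 0).trans (hgM 0); positivity
  have h1 : ∫ t in Z, (g t - c) ≤ ∫ t in Z, k t := by
    apply setIntegral_mono ((hfin Z hZf g hgm hbg).sub (hfin Z hZf (fun _ => c) measurable_const hbc))
      (hfin Z hZf k hkm hkb)
    intro t; exact le_max_left _ _
  have h2 : ∫ t in Z, k t ≤ ∫ t in I, k t := by
    have e : ∫ t in Z, k t = ∫ t in Z ∩ I, k t := by
      rw [← integral_indicator hZ, ← integral_indicator (hZ.inter hIm)]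
      congr 1; ext t
      by_cases ht : t ∈ Z
      · by_cases ht' : t ∈ I
        · rw [indicator_of_mem ht, indicator_of_mem (mem_inter ht ht')]
        · rw [indicator_of_mem ht, indicator_of_notMem (fun h => ht' h.2)]
          exact max_eq_right (by have := hout t ht'; linarith)
      · rw [indicator_of_notMem ht, indicator_of_notMem (fun h => ht h.1)]
    rw [e]
    exact setIntegral_mono_set (hfin I hIf k hkm hkb) (Eventually.of_forall hk0)
      (LE.le.eventuallyLE inter_subset_right)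
  have h3 : ∫ t in I, k t = ∫ t in I, (g t - c) := by
    apply setIntegral_congr_fun hIm
    intro t ht
    exact max_eq_left (by have := hin t ht; linarith)
  have h4 : ∫ t in Z, (g t - c) = (∫ t in Z, g t) - T * c := by
    rw [integral_sub (hfin Z hZf g hgm hbg) (hfin Z hZf (fun _ => c) measurable_const hbc),
      setIntegral_const, Measure.real, hZT, ENNReal.toReal_ofReal hT, smul_eq_mul]
  have h5 : ∫ t in I, (g t - c) = (∫ t in I, g t) - T * c := by
    rw [integral_sub (hfin I hIf g hgm hbg) (hfin I hIf (fun _ => c) measurable_const hbc),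
      setIntegral_const, Measure.real, hIT, ENNReal.toReal_ofReal hT, smul_eq_mul]
  rw [intervalIntegral.integral_of_le (by linarith)]
  linarith

/-- area of the intersection of the unit disk with a centred rectangle -/
noncomputable def areaA (p q : ℝ) : ℝ := ∫ η in (-p)..p, min (2 * q) (2 * √(1 - η ^ 2))

lemma norm_sq_mk (a b : V2) (p : ℝ × ℝ) (ha : 0 < ‖a‖) :
    ‖mk a b p‖ ^ 2 = ‖a‖ ^ 2 * (p.1 + p.2 * (inner ℝ a b / ‖a‖ ^ 2)) ^ 2
      + p.2 ^ 2 * (det2 a b / ‖a‖) ^ 2 := by
  have hn : ∀ x : V2, ‖x‖ ^ 2 = x 0 ^ 2 + x 1 ^ 2 := by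
    intro x
    rw [EuclideanSpace.norm_sq_eq, Fin.sum_univ_two]
    simp
  have hi : inner ℝ a b = a 0 * b 0 + a 1 * b 1 := by
    simp [PiLp.inner_apply, Fin.sum_univ_two]; ring
  have ha2 : (0:ℝ) < a 0 ^ 2 + a 1 ^ 2 := by rw [← hn]; positivity
  have hsq : (det2 a b / ‖a‖) ^ 2 = det2 a b ^ 2 / (a 0 ^ 2 + a 1 ^ 2) := by
    rw [div_pow, hn]
  rw [hn (mk a b p), hsq, hn a, hi]
  unfold mk det2
  simp only [PiLp.add_apply, PiLp.smul_apply, smul_eq_mul]
  field_simp
  ring

section
variable {a b : V2} (h : det2 a b ≠ 0) {E : Set V2} (hE : MeasurableSet E)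
  (hEB : E ⊆ Metric.ball 0 1)
include h hE hEB
set_option linter.unusedSectionVars false

lemma norm_a_pos : 0 < ‖a‖ := by
  rw [norm_pos_iff]
  rintro rfl
  apply h; simp [det2]

lemma slice_chord (t : ℝ) :
    hsl (mk a b ⁻¹' E) t ≤ 2 / ‖a‖ * √(1 - (t * (|det2 a b| / ‖a‖)) ^ 2) := by
  have ha := norm_a_pos h hE hEB
  set ℓ := 1 / ‖a‖ * √(1 - (t * (|det2 a b| / ‖a‖)) ^ 2) with hℓ
  have hℓ0 : 0 ≤ ℓ := by positivity
  set c := t * (inner ℝ a b / ‖a‖ ^ 2) with hc
  have hsub : ∀ σ, (σ, t) ∈ mk a b ⁻¹' E → σ ∈ Icc (-c - ℓ) (-c + ℓ) := by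
    intro σ hσ
    have h1 : ‖mk a b (σ, t)‖ < 1 := by simpa using hEB hσ
    have h2 : ‖mk a b (σ, t)‖ ^ 2 < 1 := by
      have := norm_nonneg (mk a b (σ, t)); nlinarith
    rw [norm_sq_mk a b _ ha] at h2
    simp only at h2
    have h3 : (σ + c) ^ 2 ≤ ℓ ^ 2 := by
      have e1 : ℓ ^ 2 = 1 / ‖a‖ ^ 2 * (1 - (t * (|det2 a b| / ‖a‖)) ^ 2) := by
        rw [hℓ, mul_pow, Real.sq_sqrt, div_pow, one_pow]
        have e2 : (t * (|det2 a b| / ‖a‖)) ^ 2 = t ^ 2 * (det2 a b / ‖a‖) ^ 2 := by
          rw [mul_pow, div_pow, div_pow, sq_abs]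
        rw [e2]
        have : 0 ≤ ‖a‖ ^ 2 * (σ + t * (inner ℝ a b / ‖a‖ ^ 2)) ^ 2 := by positivity
        linarith
      have e2 : (t * (|det2 a b| / ‖a‖)) ^ 2 = t ^ 2 * (det2 a b / ‖a‖) ^ 2 := by
        rw [mul_pow, div_pow, div_pow, sq_abs]
      rw [e1, e2, one_div, ← div_eq_inv_mul, le_div_iff₀ (by positivity)]
      nlinarith
    have h4 := abs_le_of_sq_le_sq' h3 hℓ0
    constructor <;> linarith [h4.1, h4.2]
  have hle : hsl (mk a b ⁻¹' E) t ≤ ∫ σ, (Icc (-c - ℓ) (-c + ℓ)).indicator (fun _ => (1:ℝ)) σ := by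
    unfold hsl
    apply integral_mono_of_nonneg
    · exact Eventually.of_forall fun σ => indicator_nonneg (fun _ _ => zero_le_one) _
    · exact (integrable_indicator_iff measurableSet_Icc).2 (integrableOn_const (by simp))
    · refine Eventually.of_forall fun σ => ?_
      by_cases hσ : (σ, t) ∈ mk a b ⁻¹' E
      · simp only
        rw [indicator_of_mem hσ, indicator_of_mem (hsub σ hσ)]
      · simp only
        rw [indicator_of_notMem hσ]
        exact indicator_nonneg (fun _ _ => zero_le_one) _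
  refine hle.trans (le_of_eq ?_)
  rw [integral_indicator measurableSet_Icc, setIntegral_const, smul_eq_mul, mul_one, Measure.real,
    Real.volume_Icc, ENNReal.toReal_ofReal (by linarith), hℓ]
  ring

lemma slice_ext2 : ∀ᵐ t : ℝ, hsl (mk a b ⁻¹' E) t ≤ ext2 (mk a b ⁻¹' E) := by
  set S := mk a b ⁻¹' E with hS
  have hSm : MeasurableSet S := (mk_cont a b).measurable hE
  obtain ⟨r, hr, hSr⟩ := exists_radius a b h hEB
  have hSm' : MeasurableSet (Prod.swap ⁻¹' S) := measurable_swap hSm
  have hSr' : ∀ x ∈ Prod.swap ⁻¹' S, |x.1| ≤ r ∧ |x.2| ≤ r :=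
    fun x hx => ⟨(hSr _ hx).2, (hSr _ hx).1⟩
  set Z : Set ℝ := {s | 0 < hsl (Prod.swap ⁻¹' S) s} with hZ
  have hZm : MeasurableSet Z := measurableSet_lt measurable_const (hsl_meas hSm' hSr')
  have hZf : volume Z ≠ ⊤ := by
    have : Z ⊆ Icc (-r) r := by
      intro s hs
      by_contra hcon
      have h1 : r < |s| := by
        by_contra hh
        push Not at hh
        exact hcon (abs_le.1 hh)
      have h0 := hsl_zero hSm' hSr' h1
      rw [hZ, mem_ofPred_eq, h0] at hs
      exact lt_irrefl _ hs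
    exact ne_top_of_le_ne_top (by simp) (measure_mono this)
  -- for every `σ`, almost every `t`
  have hall : ∀ᵐ σ : ℝ, ∀ᵐ t : ℝ, (σ, t) ∈ S → σ ∈ Z := by
    refine Eventually.of_forall fun σ => ?_
    by_cases hσ : σ ∈ Z
    · exact Eventually.of_forall fun t _ => hσ
    · have h0 : hsl (Prod.swap ⁻¹' S) σ = 0 :=
        le_antisymm (not_lt.1 hσ) (hsl_nonneg hSm' hSr' σ)
      unfold hsl at h0
      rw [integral_eq_zero_iff_of_nonneg
        (fun t => indicator_nonneg (fun _ _ => zero_le_one) _) (ind_int hSm' hSr' σ)] at h0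
      filter_upwards [h0] with t ht hin
      exfalso
      have h1 : (t, σ) ∈ Prod.swap ⁻¹' S := hin
      rw [indicator_of_mem h1] at ht
      exact one_ne_zero ht
  have hmeas : MeasurableSet {p : ℝ × ℝ | (p.1, p.2) ∈ S → p.1 ∈ Z} := by
    have : {p : ℝ × ℝ | (p.1, p.2) ∈ S → p.1 ∈ Z} = Sᶜ ∪ (Prod.fst ⁻¹' Z) := by
      ext p; simp [imp_iff_not_or]
    rw [this]
    exact hSm.compl.union (measurable_fst hZm)
  rw [Measure.ae_ae_comm hmeas] at hall
  filter_upwards [hall] with t ht
  unfold hsl ext2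
  have hle : ∫ σ, S.indicator (fun _ => (1:ℝ)) (σ, t) ≤ ∫ σ, Z.indicator (fun _ => (1:ℝ)) σ := by
    apply integral_mono_of_nonneg
    · exact Eventually.of_forall fun σ => indicator_nonneg (fun _ _ => zero_le_one) _
    · exact (integrable_indicator_iff hZm).2 (integrableOn_const hZf)
    · filter_upwards [ht] with σ hσ
      by_cases hσS : (σ, t) ∈ S
      · rw [indicator_of_mem hσS, indicator_of_mem (hσ hσS)]
      · rw [indicator_of_notMem hσS]
        exact indicator_nonneg (fun _ _ => zero_le_one) _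
  refine hle.trans (le_of_eq ?_)
  rw [integral_indicator hZm, setIntegral_const, smul_eq_mul, mul_one]; rfl

/-- the area bound -/
lemma area_bound : (volume E).toReal
    ≤ areaA (ext1 (mk a b ⁻¹' E) * |det2 a b| / (2 * ‖a‖)) (‖a‖ * ext2 (mk a b ⁻¹' E) / 2) := by
  have ha := norm_a_pos h hE hEB
  have hD : 0 < |det2 a b| := abs_pos.2 h
  set S := mk a b ⁻¹' E with hS
  set D := |det2 a b| with hDdef
  have hSm : MeasurableSet S := (mk_cont a b).measurable hE
  obtain ⟨r, hr, hSr⟩ := exists_radius a b h hEB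
  have hmm := hsl_meas hSm hSr
  have hm0 := hsl_nonneg hSm hSr
  set Z : Set ℝ := {t | 0 < hsl S t} with hZ
  have hZm : MeasurableSet Z := measurableSet_lt measurable_const hmm
  have hZf : volume Z ≠ ⊤ := by
    have : Z ⊆ Icc (-r) r := by
      intro s hs
      by_contra hcon
      have h1 : r < |s| := by
        by_contra hh
        push Not at hh
        exact hcon (abs_le.1 hh)
      have h0 := hsl_zero hSm hSr h1
      rw [hZ, mem_ofPred_eq, h0] at hs
      exact lt_irrefl _ hs
    exact ne_top_of_le_ne_top (by simp) (measure_mono this)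
  have hSf : volume S ≠ ⊤ := by
    have : S ⊆ Icc (-r) r ×ˢ Icc (-r) r := fun x hx => by
      have := hSr x hx
      exact ⟨abs_le.1 this.1, abs_le.1 this.2⟩
    refine ne_top_of_le_ne_top ?_ (measure_mono this)
    rw [Measure.volume_eq_prod, Measure.prod_prod]
    exact ENNReal.mul_ne_top (by simp) (by simp)
  set T := ext1 S with hT
  set X := ext2 S with hX
  have hT0 : 0 ≤ T := ENNReal.toReal_nonneg
  have hX0 : 0 ≤ X := ENNReal.toReal_nonneg
  have hZT : volume Z = ENNReal.ofReal T := (ENNReal.ofReal_toReal hZf).symm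
  -- the volume of `S`
  have e1 : (volume E).toReal = D * (volume S).toReal := by
    rw [hS, vol_mk h hE, ENNReal.toReal_mul, ENNReal.toReal_ofReal (by positivity), ← mul_assoc,
      mul_inv_cancel₀ hD.ne', one_mul]
  have e2 : (volume S).toReal = ∫ t, hsl S t := by
    have h1 : Integrable (S.indicator fun _ => (1:ℝ)) :=
      (integrable_indicator_iff hSm).2 (integrableOn_const hSf)
    have h2 : (volume S).toReal = ∫ p, S.indicator (fun _ => (1:ℝ)) p := by
      rw [integral_indicator hSm, setIntegral_const, smul_eq_mul, mul_one]; rfl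
    rw [h2, Measure.volume_eq_prod, ← integral_prod_swap, integral_prod]
    · rfl
    · rw [Measure.volume_eq_prod] at h1
      exact h1.swap
  set g : ℝ → ℝ := fun t => min X (2 / ‖a‖ * √(1 - (t * (D / ‖a‖)) ^ 2)) with hg
  have hgm : Measurable g := by
    apply Continuous.measurable; simp only [hg]; fun_prop
  have hg0 : ∀ t, 0 ≤ g t := fun t => le_min hX0 (by positivity)
  have hgM : ∀ t, g t ≤ X := fun t => min_le_left _ _
  have hge : ∀ t, g (-t) = g t := fun t => by simp only [hg]; congr 3; ring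
  have hga : ∀ s t, 0 ≤ s → s ≤ t → g t ≤ g s := by
    intro s t hs hst
    simp only [hg]
    apply min_le_min le_rfl
    apply mul_le_mul_of_nonneg_left _ (by positivity)
    apply Real.sqrt_le_sqrt
    have : (s * (D / ‖a‖)) ^ 2 ≤ (t * (D / ‖a‖)) ^ 2 := by
      apply pow_le_pow_left₀ (by positivity)
      gcongr
    linarith
  have hle : ∀ᵐ t : ℝ, hsl S t ≤ Z.indicator g t := by
    filter_upwards [slice_ext2 h hE hEB] with t ht
    by_cases htZ : t ∈ Z
    · rw [indicator_of_mem htZ]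
      exact le_min ht (slice_chord h hE hEB t)
    · rw [indicator_of_notMem htZ]
      exact not_lt.1 htZ
  have hgi : Integrable (Z.indicator g) := by
    rw [integrable_indicator_iff hZm]
    exact Measure.integrableOn_of_bounded hZf hgm.aestronglyMeasurable
      (Eventually.of_forall fun t => by
        rw [Real.norm_eq_abs, abs_of_nonneg (hg0 t)]; exact hgM t)
  have e3 : ∫ t, hsl S t ≤ ∫ t in Z, g t := by
    rw [← integral_indicator hZm]
    exact integral_mono_of_nonneg (Eventually.of_forall hm0) hgi hle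
  have e4 := bathtub hgm hg0 hgM hge hga hZm hT0 hZT
  -- substitution
  have e5 : ∫ t in (-(T / 2))..(T / 2), g t = 1 / D * areaA (T * D / (2 * ‖a‖)) (‖a‖ * X / 2) := by
    unfold areaA
    have hs := intervalIntegral.integral_comp_mul_right (a := -(T / 2)) (b := T / 2)
      (fun η => min (2 * (‖a‖ * X / 2)) (2 * √(1 - η ^ 2))) (show D / ‖a‖ ≠ 0 by positivity)
    have e6 : ∀ t, g t = 1 / ‖a‖ * min (2 * (‖a‖ * X / 2)) (2 * √(1 - (t * (D / ‖a‖)) ^ 2)) := by
      intro t
      simp only [hg]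
      rw [mul_min_of_nonneg _ _ (by positivity)]
      congr 1
      · field_simp
      · ring
    simp only [e6]
    rw [intervalIntegral.integral_const_mul, hs, smul_eq_mul]
    have e7 : -(T / 2) * (D / ‖a‖) = -(T * D / (2 * ‖a‖)) := by ring
    have e8 : T / 2 * (D / ‖a‖) = T * D / (2 * ‖a‖) := by ring
    rw [e7, e8]
    field_simp
  rw [e5] at e4
  rw [e1, e2]
  calc D * ∫ t, hsl S t ≤ D * (1 / D * areaA (T * D / (2 * ‖a‖)) (‖a‖ * X / 2)) := by
        gcongr; exact e3.trans e4
    _ = _ := by field_simp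

end

end H25Ani
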