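import Mathlib
import Pool.Agent.H25.AniE
open MeasureTheory Filter Topology Set
open scoped ContDiff ENNReal

namespace H25Ani

noncomputable def PF (x : ℝ) : ℝ := x * √(1 - x ^ 2) + Real.arcsin x

lemma PF_hasDerivAt {x : ℝ} (h1 : -1 < x) (h2 : x < 1) : HasDerivAt PF (2 * √(1 - x ^ 2)) x := by
  have hpos : 0 < 1 - x ^ 2 := by nlinarith
  have hs : 0 < √(1 - x ^ 2) := Real.sqrt_pos.2 hpos
  have e1 : HasDerivAt (fun x : ℝ => 1 - x ^ 2) (-(2 * x)) x := by
    have := ((hasDerivAt_id x).pow 2).const_sub 1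
    simpa using this
  have e2 := e1.sqrt hpos.ne'
  have e3 := (hasDerivAt_id x).mul e2
  have e4 := e3.add (Real.hasDerivAt_arcsin h1.ne' h2.ne)
  have e5 : HasDerivAt PF _ x := e4
  convert e5 using 1
  simp only [id]
  field_simp
  rw [Real.sq_sqrt hpos.le]; ring

lemma PF_cont : Continuous PF := by
  unfold PF
  have := Real.continuous_arcsin
  fun_prop

lemma int_sqrt {u v : ℝ} (hu : -1 ≤ u) (huv : u ≤ v) (hv : v ≤ 1) :
    ∫ η in u..v, 2 * √(1 - η ^ 2) = PF v - PF u := by
  apply intervalIntegral.integral_eq_sub_of_hasDerivAt_of_le huv PF_cont.continuousOn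
  · intro x hx
    exact PF_hasDerivAt (lt_of_le_of_lt hu hx.1) (lt_of_lt_of_le hx.2 hv)
  · apply Continuous.intervalIntegrable
    fun_prop

lemma PF_neg (x : ℝ) : PF (-x) = -PF x := by
  unfold PF; rw [Real.arcsin_neg]; simp; ring

lemma min_cont (q : ℝ) : Continuous fun η : ℝ => min (2 * q) (2 * √(1 - η ^ 2)) := by fun_prop

lemma areaA_formula {p q : ℝ} (hp0 : 0 < p) (hp : p ≤ 1) (hq0 : 0 < q) (hq : q ≤ 1)
    (h : 1 ≤ p ^ 2 + q ^ 2) : areaA p q = 2 * PF p + 2 * PF q - Real.pi := by
  set c := √(1 - q ^ 2) with hc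
  have hq2 : 0 ≤ 1 - q ^ 2 := by nlinarith
  have hc0 : 0 ≤ c := Real.sqrt_nonneg _
  have hc2 : c ^ 2 = 1 - q ^ 2 := Real.sq_sqrt hq2
  have hcp : c ≤ p := by
    apply le_of_sq_le_sq _ hp0.le
    rw [hc2]; linarith
  have hint : ∀ u v, IntervalIntegrable (fun η : ℝ => min (2 * q) (2 * √(1 - η ^ 2))) volume u v :=
    fun u v => (min_cont q).intervalIntegrable _ _
  unfold areaA
  rw [← intervalIntegral.integral_add_adjacent_intervals (hint (-p) (-c)) (hint (-c) p),
    ← intervalIntegral.integral_add_adjacent_intervals (hint (-c) c) (hint c p)]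
  -- outer parts
  have houter : ∀ η : ℝ, c ≤ |η| → min (2 * q) (2 * √(1 - η ^ 2)) = 2 * √(1 - η ^ 2) := by
    intro η hη
    apply min_eq_right
    have : √(1 - η ^ 2) ≤ q := by
      rw [show q = √(q ^ 2) from (Real.sqrt_sq hq0.le).symm]
      apply Real.sqrt_le_sqrt
      have : c ^ 2 ≤ |η| ^ 2 := pow_le_pow_left₀ hc0 hη 2
      rw [sq_abs, hc2] at this
      linarith
    linarith
  have hinner : ∀ η : ℝ, |η| ≤ c → min (2 * q) (2 * √(1 - η ^ 2)) = 2 * q := by
    intro η hη
    apply min_eq_left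
    have : q ≤ √(1 - η ^ 2) := by
      apply Real.le_sqrt_of_sq_le
      have : |η| ^ 2 ≤ c ^ 2 := pow_le_pow_left₀ (abs_nonneg _) hη 2
      rw [sq_abs, hc2] at this
      linarith
    linarith
  have i1 : ∫ η in (-p)..(-c), min (2 * q) (2 * √(1 - η ^ 2)) = PF (-c) - PF (-p) := by
    rw [← int_sqrt (by linarith) (by linarith) (by linarith)]
    apply intervalIntegral.integral_congr
    intro η hη
    rw [uIcc_of_le (by linarith)] at hη
    apply houter
    rw [abs_of_nonpos (by linarith [hη.2])]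
    linarith [hη.2]
  have i3 : ∫ η in c..p, min (2 * q) (2 * √(1 - η ^ 2)) = PF p - PF c := by
    rw [← int_sqrt (by linarith) (by linarith) (by linarith)]
    apply intervalIntegral.integral_congr
    intro η hη
    rw [uIcc_of_le (by linarith)] at hη
    apply houter
    rw [abs_of_nonneg (by linarith [hη.1])]
    exact hη.1
  have i2 : ∫ η in (-c)..c, min (2 * q) (2 * √(1 - η ^ 2)) = (2 * c) * (2 * q) := by
    have : ∫ η in (-c)..c, min (2 * q) (2 * √(1 - η ^ 2)) = ∫ η in (-c)..c, 2 * q := by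
      apply intervalIntegral.integral_congr
      intro η hη
      rw [uIcc_of_le (by linarith)] at hη
      exact hinner η (abs_le.2 hη)
    rw [this, intervalIntegral.integral_const, smul_eq_mul]; ring
  rw [i1, i2, i3, PF_neg, PF_neg]
  have hPc : PF c = c * q + (Real.pi / 2 - Real.arcsin q) := by
    unfold PF
    have e1 : √(1 - c ^ 2) = q := by rw [hc2, sub_sub_cancel, Real.sqrt_sq hq0.le]
    have e2 : Real.arcsin c = Real.pi / 2 - Real.arcsin q := by
      rw [hc, ← Real.arccos_eq_arcsin hq0.le, Real.arccos]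
    rw [e1, e2]
  have hPq : PF q = q * c + Real.arcsin q := rfl
  rw [hPc, hPq]; ring

lemma keygen {A B : ℝ} (hA0 : 0 < A) (hB0 : 0 < B) (hA : A < 1) (hB : B < 1) (hAB : B ≤ A)
    (h : 1 ≤ 2 * (A * B)) : A * √(1 - A ^ 2) ≤ B * √(1 - B ^ 2) := by
  apply le_of_sq_le_sq _ (by positivity)
  have hA1 : 0 ≤ 1 - A ^ 2 := by nlinarith
  have hB1 : 0 ≤ 1 - B ^ 2 := by nlinarith
  rw [mul_pow, mul_pow, Real.sq_sqrt hA1, Real.sq_sqrt hB1]
  have h3 : 1 ≤ A ^ 2 + B ^ 2 := by nlinarith [sq_nonneg (A - B)]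
  have h4 : 0 ≤ A ^ 2 - B ^ 2 := by nlinarith
  have h5 := mul_nonneg h4 (sub_nonneg.2 h3)
  have e : B ^ 2 * (1 - B ^ 2) - A ^ 2 * (1 - A ^ 2) = (A ^ 2 - B ^ 2) * (A ^ 2 + B ^ 2 - 1) := by
    ring
  linarith

/-- monotonicity along hyperbolas -/
lemma PF_hyp {p q : ℝ} (hq0 : 0 < q) (hqp : q ≤ p) (hp : p ≤ 1) (h : 1 ≤ 2 * (p * q)) :
    PF p + PF q ≤ 2 * PF (√(p * q)) := by
  set τ := √(p * q) with hτ
  have hp0 : 0 < p := lt_of_lt_of_le hq0 hqp
  have hpq : 0 < p * q := by positivity
  have hτ0 : 0 < τ := Real.sqrt_pos.2 hpq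
  have hτ2 : τ ^ 2 = p * q := Real.sq_sqrt hpq.le
  have hτp : τ ≤ p := by
    apply le_of_sq_le_sq _ hp0.le
    rw [hτ2]; nlinarith
  set H : ℝ → ℝ := fun l => PF (τ * l) + PF (τ / l) with hH
  set l1 := p / τ with hl1
  have hl1' : 1 ≤ l1 := by rw [hl1, le_div_iff₀ hτ0]; linarith
  have hanti : AntitoneOn H (Icc 1 l1) := by
    apply antitoneOn_of_deriv_nonpos (convex_Icc _ _)
    · apply ContinuousOn.add
      · exact (PF_cont.comp (continuous_const.mul continuous_id)).continuousOn
      · apply PF_cont.comp_continuousOn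
        apply continuousOn_const.div continuousOn_id
        intro x hx
        have := hx.1
        simp only [id]; linarith
    all_goals
      rw [interior_Icc]
    · intro l hl
      have hl0 : 0 < l := by linarith [hl.1]
      have b1 : τ * l < 1 := by
        have h1 : τ * l < τ * l1 := mul_lt_mul_of_pos_left hl.2 hτ0
        have h2 : τ * l1 = p := by rw [hl1]; field_simp
        linarith
      have b2 : τ / l < 1 := by
        rw [div_lt_one hl0]; linarith [hl.1, hτp.trans hp]
      have d1 : HasDerivAt (fun l => PF (τ * l)) (2 * √(1 - (τ * l) ^ 2) * τ) l := by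
        have e : HasDerivAt (fun l : ℝ => τ * l) τ l := by
          simpa using (hasDerivAt_id l).const_mul τ
        exact (PF_hasDerivAt (x := τ * l) (by nlinarith) b1).comp l e
      have d2 : HasDerivAt (fun l => PF (τ / l)) (2 * √(1 - (τ / l) ^ 2) * (-(τ / l ^ 2))) l := by
        have e : HasDerivAt (fun l : ℝ => τ / l) (-(τ / l ^ 2)) l := by
          have := (hasDerivAt_inv hl0.ne').const_mul τ
          refine (this.congr_of_eventuallyEq (Eventually.of_forall fun y => ?_)).congr_deriv ?_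
          · simp [div_eq_mul_inv]
          · ring
        exact (PF_hasDerivAt (x := τ / l) (by have : 0 < τ / l := by positivity
                                              linarith) b2).comp l e
      exact (d1.add d2).differentiableAt.differentiableWithinAt
    · intro l hl
      have hl0 : 0 < l := by linarith [hl.1]
      have b1 : τ * l < 1 := by
        have h1 : τ * l < τ * l1 := mul_lt_mul_of_pos_left hl.2 hτ0
        have h2 : τ * l1 = p := by rw [hl1]; field_simp
        linarith
      have b2 : τ / l < 1 := by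
        rw [div_lt_one hl0]; linarith [hl.1, hτp.trans hp]
      have d1 : HasDerivAt (fun l => PF (τ * l)) (2 * √(1 - (τ * l) ^ 2) * τ) l := by
        have e : HasDerivAt (fun l : ℝ => τ * l) τ l := by
          simpa using (hasDerivAt_id l).const_mul τ
        exact (PF_hasDerivAt (x := τ * l) (by nlinarith) b1).comp l e
      have d2 : HasDerivAt (fun l => PF (τ / l)) (2 * √(1 - (τ / l) ^ 2) * (-(τ / l ^ 2))) l := by
        have e : HasDerivAt (fun l : ℝ => τ / l) (-(τ / l ^ 2)) l := by
          have := (hasDerivAt_inv hl0.ne').const_mul τ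
          refine (this.congr_of_eventuallyEq (Eventually.of_forall fun y => ?_)).congr_deriv ?_
          · simp [div_eq_mul_inv]
          · ring
        exact (PF_hasDerivAt (x := τ / l) (by have : 0 < τ / l := by positivity
                                              linarith) b2).comp l e
      have hd : deriv H l = _ := (d1.add d2).deriv
      rw [hd]
      set A := τ * l with hA
      set B := τ / l with hB
      have hA0 : 0 < A := by positivity
      have hB0 : 0 < B := by positivity
      have hAB : B ≤ A := by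
        rw [hA, hB, div_le_iff₀ hl0]; nlinarith [hl.1]
      have hABm : A * B = p * q := by rw [hA, hB, ← hτ2]; field_simp
      have key : A * √(1 - A ^ 2) ≤ B * √(1 - B ^ 2) :=
        keygen hA0 hB0 b1 b2 hAB (by rw [hABm]; exact h)
      have e1 : 2 * √(1 - A ^ 2) * τ + 2 * √(1 - B ^ 2) * (-(τ / l ^ 2))
          = 2 / l * (A * √(1 - A ^ 2) - B * √(1 - B ^ 2)) := by
        rw [hA, hB]; field_simp; ring
      rw [e1]
      apply mul_nonpos_of_nonneg_of_nonpos (by positivity)
      linarith
  have := hanti (left_mem_Icc.2 hl1') (right_mem_Icc.2 hl1') hl1'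
  simp only [hH, mul_one, div_one] at this
  have e1 : τ * l1 = p := by rw [hl1]; field_simp
  have e2 : τ / l1 = q := by
    rw [hl1, div_div_eq_mul_div, ← sq, hτ2]; field_simp
  rw [e1, e2] at this
  linarith

lemma areaA_le_rect {p q : ℝ} (hp : 0 ≤ p) : areaA p q ≤ 4 * (p * q) := by
  unfold areaA
  have : ∫ η in (-p)..p, min (2 * q) (2 * √(1 - η ^ 2)) ≤ ∫ η in (-p)..p, 2 * q := by
    apply intervalIntegral.integral_mono_on (by linarith) ((min_cont q).intervalIntegrable _ _)
      (continuous_const.intervalIntegrable _ _)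
    intro η _; exact min_le_left _ _
  refine this.trans (le_of_eq ?_)
  rw [intervalIntegral.integral_const, smul_eq_mul]; ring

lemma areaA_small {τ : ℝ} (h0 : 0 ≤ τ) (h : 2 * τ ^ 2 ≤ 1) : areaA τ τ = 4 * τ ^ 2 := by
  unfold areaA
  have : ∫ η in (-τ)..τ, min (2 * τ) (2 * √(1 - η ^ 2)) = ∫ η in (-τ)..τ, 2 * τ := by
    apply intervalIntegral.integral_congr
    intro η hη
    rw [uIcc_of_le (by linarith)] at hη
    apply min_eq_left
    have : τ ≤ √(1 - η ^ 2) := by
      apply Real.le_sqrt_of_sq_le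
      have : η ^ 2 ≤ τ ^ 2 := by
        have := abs_le.2 hη
        calc η ^ 2 = |η| ^ 2 := (sq_abs η).symm
          _ ≤ τ ^ 2 := pow_le_pow_left₀ (abs_nonneg _) this 2
      linarith
    linarith
  rw [this, intervalIntegral.integral_const, smul_eq_mul]; ring

/-- the square is the best rectangle -/
lemma areaA_le {m : ℝ} (hm : 0 ≤ m) (hA : ∀ τ, 0 < τ → τ ≤ 1 → areaA τ τ ≤ m * τ) {p q : ℝ}
    (hp : 0 ≤ p) (hq : 0 ≤ q) : areaA p q ≤ m * √(p * q) := by
  -- the main case
  have main : ∀ p q, 0 ≤ p → 0 ≤ q → p ≤ 1 → q ≤ 1 → areaA p q ≤ m * √(p * q) := by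
    intro p q hp hq hp1 hq1
    rcases hp.eq_or_lt with rfl | hp0
    · have : areaA 0 q = 0 := by unfold areaA; simp
      rw [this]; positivity
    rcases hq.eq_or_lt with rfl | hq0
    · refine (areaA_le_rect hp).trans ?_
      simp
    have hpq : 0 < p * q := by positivity
    have hτ0 : 0 < √(p * q) := Real.sqrt_pos.2 hpq
    have hτ1 : √(p * q) ≤ 1 := Real.sqrt_le_one.2 (mul_le_one₀ hp1 hq hq1)
    have hτ2 : √(p * q) ^ 2 = p * q := Real.sq_sqrt hpq.le
    refine le_trans ?_ (hA _ hτ0 hτ1)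
    rcases le_total (2 * (p * q)) 1 with h | h
    · rw [areaA_small hτ0.le (by rw [hτ2]; exact h), hτ2]
      exact areaA_le_rect hp
    · rw [areaA_formula hp0 hp1 hq0 hq1 (by nlinarith [sq_nonneg (p - q)]),
        areaA_formula hτ0 hτ1 hτ0 hτ1 (by rw [hτ2]; linarith)]
      rcases le_total q p with hqp | hqp
      · have := PF_hyp hq0 hqp hp1 h
        linarith
      · have := PF_hyp hp0 hqp hq1 (by rw [mul_comm q p]; exact h)
        rw [mul_comm q p] at this
        linarith
  -- clipping
  have clipq : ∀ p q, 0 ≤ p → 1 ≤ q → areaA p q = areaA p 1 := by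
    intro p q hp hq
    unfold areaA
    congr 1; ext η
    have : √(1 - η ^ 2) ≤ 1 := Real.sqrt_le_one.2 (by nlinarith [sq_nonneg η])
    rw [min_eq_right (by linarith), min_eq_right (by linarith)]
  have clipp : ∀ p q, 1 ≤ p → 0 ≤ q → areaA p q = areaA 1 q := by
    intro p q hp hq
    have hint : ∀ u v, IntervalIntegrable (fun η : ℝ => min (2 * q) (2 * √(1 - η ^ 2))) volume u v :=
      fun u v => (min_cont q).intervalIntegrable _ _
    have hz : ∀ η : ℝ, 1 ≤ |η| → min (2 * q) (2 * √(1 - η ^ 2)) = 0 := by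
      intro η hη
      have : √(1 - η ^ 2) = 0 := by
        apply Real.sqrt_eq_zero_of_nonpos
        have : 1 ≤ |η| ^ 2 := one_le_pow₀ hη
        rw [sq_abs] at this; linarith
      rw [this, mul_zero, min_eq_right (by positivity)]
    unfold areaA
    rw [← intervalIntegral.integral_add_adjacent_intervals (hint (-p) (-1)) (hint (-1) p),
      ← intervalIntegral.integral_add_adjacent_intervals (hint (-1) 1) (hint 1 p)]
    have i1 : ∫ η in (-p)..(-1), min (2 * q) (2 * √(1 - η ^ 2)) = 0 := by
      have : ∫ η in (-p)..(-1), min (2 * q) (2 * √(1 - η ^ 2)) = ∫ η in (-p)..(-1), (0:ℝ) := by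
        apply intervalIntegral.integral_congr
        intro η hη
        rw [uIcc_of_le (by linarith)] at hη
        apply hz
        rw [abs_of_nonpos (by linarith [hη.2])]
        linarith [hη.2]
      rw [this]; simp
    have i3 : ∫ η in (1:ℝ)..p, min (2 * q) (2 * √(1 - η ^ 2)) = 0 := by
      have : ∫ η in (1:ℝ)..p, min (2 * q) (2 * √(1 - η ^ 2)) = ∫ η in (1:ℝ)..p, (0:ℝ) := by
        apply intervalIntegral.integral_congr
        intro η hη
        rw [uIcc_of_le (by linarith)] at hη
        apply hz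
        rw [abs_of_nonneg (by linarith [hη.1])]
        exact hη.1
      rw [this]; simp
    rw [i1, i3]; ring
  have mono : ∀ x y : ℝ, x ≤ y → m * √x ≤ m * √y := fun x y h =>
    mul_le_mul_of_nonneg_left (Real.sqrt_le_sqrt h) hm
  rcases le_total p 1 with hp1 | hp1 <;> rcases le_total q 1 with hq1 | hq1
  · exact main p q hp hq hp1 hq1
  · rw [clipq p q hp hq1]
    exact (main p 1 hp zero_le_one hp1 le_rfl).trans (mono _ _ (by nlinarith))
  · rw [clipp p q hp1 hq]
    exact (main 1 q zero_le_one hq le_rfl hq1).trans (mono _ _ (by nlinarith))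
  · rw [clipp p q hp1 hq, clipq 1 q zero_le_one hq1]
    exact (main 1 1 zero_le_one zero_le_one le_rfl le_rfl).trans (mono _ _ (by nlinarith))

lemma areaA_cos : areaA (Real.cos (Real.pi / 8)) (Real.cos (Real.pi / 8)) = √2 + Real.pi / 2 := by
  have hpi := Real.pi_pos
  have h0 : 0 < Real.cos (Real.pi / 8) := Real.cos_pos_of_mem_Ioo ⟨by linarith, by linarith⟩
  have h1 : Real.cos (Real.pi / 8) ≤ 1 := Real.cos_le_one _
  have hdbl : 2 * Real.cos (Real.pi / 8) ^ 2 = 1 + √2 / 2 := by
    have := Real.cos_two_mul (Real.pi / 8)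
    rw [show 2 * (Real.pi / 8) = Real.pi / 4 by ring, Real.cos_pi_div_four] at this
    linarith
  rw [areaA_formula h0 h1 h0 h1 (by have : 0 ≤ √2 := by positivity
                                    linarith)]
  unfold PF
  have e1 : √(1 - Real.cos (Real.pi / 8) ^ 2) = Real.sin (Real.pi / 8) := by
    rw [show 1 - Real.cos (Real.pi / 8) ^ 2 = Real.sin (Real.pi / 8) ^ 2 by
      have := Real.sin_sq_add_cos_sq (Real.pi / 8); linarith]
    exact Real.sqrt_sq (Real.sin_nonneg_of_nonneg_of_le_pi (by linarith) (by linarith))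
  have e2 : Real.arcsin (Real.cos (Real.pi / 8)) = Real.pi / 2 - Real.pi / 8 := by
    rw [← Real.sin_pi_div_two_sub]
    exact Real.arcsin_sin (by linarith) (by linarith)
  have e3 : 2 * (Real.cos (Real.pi / 8) * Real.sin (Real.pi / 8)) = √2 / 2 := by
    have := Real.sin_two_mul (Real.pi / 8)
    rw [show 2 * (Real.pi / 8) = Real.pi / 4 by ring, Real.sin_pi_div_four] at this
    linarith
  rw [e1, e2]
  linarith

end H25Ani
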