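import Mathlib
import Pool.Agent.H25.AniF
open MeasureTheory Filter Topology Set
open scoped ContDiff ENNReal

namespace H25Ani

lemma inner_eq (x y : V2) : inner ℝ x y = x 0 * y 0 + x 1 * y 1 := by
  simp [PiLp.inner_apply, Fin.sum_univ_two]; ring

/-- the standard basis -/
noncomputable def e0 : V2 := EuclideanSpace.single 0 1
noncomputable def e1 : V2 := EuclideanSpace.single 1 1

lemma det_e : det2 e0 e1 = 1 := by simp [det2, e0, e1]

/-- the test sets -/
def Et (τ : ℝ) : Set V2 := {x | x 0 ^ 2 + x 1 ^ 2 < 1 ∧ |x 0| < τ ∧ |x 1| < τ}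

noncomputable def ell (τ t : ℝ) : ℝ := min τ (√(1 - t ^ 2))

lemma mk_e (p : ℝ × ℝ) : mk e0 e1 p 0 = p.1 ∧ mk e0 e1 p 1 = p.2 := by
  simp [mk, e0, e1]

def Sq (τ : ℝ) : Set (ℝ × ℝ) := {p | p.2 ∈ Ioo (-τ) τ ∧ p.1 ∈ Ioo (-(ell τ p.2)) (ell τ p.2)}

lemma Sq_eq (τ : ℝ) : mk e0 e1 ⁻¹' (Et τ) = Sq τ := by
  ext p
  simp only [mem_preimage, Et, Sq, mem_ofPred_eq, (mk_e p).1, (mk_e p).2, mem_Ioo, ell,
    lt_min_iff, neg_lt]
  rw [← abs_lt (a := p.2)]
  have h1 : (p.1 < √(1 - p.2 ^ 2) ∧ -p.1 < √(1 - p.2 ^ 2)) ↔ p.1 ^ 2 + p.2 ^ 2 < 1 := by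
    rw [← max_lt_iff, ← abs_eq_max_neg, Real.lt_sqrt (abs_nonneg _), sq_abs]
    constructor <;> intro h <;> linarith
  have h2 : (p.1 < τ ∧ -p.1 < τ) ↔ |p.1| < τ := by
    rw [← max_lt_iff, ← abs_eq_max_neg]
  constructor
  · rintro ⟨h3, h4, h5⟩
    have h6 := h1.2 h3
    have h7 := h2.2 h4
    exact ⟨h5, ⟨neg_lt.1 h7.2, h6.2⟩, h7.1, h6.1⟩
  · rintro ⟨h5, ⟨h7, h8⟩, h9, h10⟩
    exact ⟨h1.1 ⟨h10, h8⟩, h2.1 ⟨h9, neg_lt.1 h7⟩, h5⟩

lemma Sq_swap (τ : ℝ) : Prod.swap ⁻¹' (Sq τ) = Sq τ := by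
  rw [← Sq_eq]
  ext p
  simp only [mem_preimage, Et, mem_ofPred_eq, (mk_e _).1, (mk_e _).2, Prod.fst_swap, Prod.snd_swap]
  rw [add_comm (p.2 ^ 2)]
  tauto

lemma Et_meas (τ : ℝ) : MeasurableSet (Et τ) := by
  have h : ∀ i, Continuous fun x : V2 => x i := fun i => by fun_prop
  have e : Et τ = {x : V2 | x 0 ^ 2 + x 1 ^ 2 < 1} ∩ ({x : V2 | |x 0| < τ} ∩ {x : V2 | |x 1| < τ}) := rfl
  rw [e]
  exact ((isOpen_lt (by fun_prop) continuous_const).inter
    ((isOpen_lt (by fun_prop) continuous_const).inter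
      (isOpen_lt (by fun_prop) continuous_const))).measurableSet

lemma Et_sub (τ : ℝ) : Et τ ⊆ Metric.ball 0 1 := by
  intro x hx
  rw [mem_ball_zero_iff]
  have hn : ‖x‖ ^ 2 = x 0 ^ 2 + x 1 ^ 2 := by
    rw [EuclideanSpace.norm_sq_eq, Fin.sum_univ_two]; simp
  have h1 := hx.1
  rw [← hn] at h1
  nlinarith [norm_nonneg x]

lemma Sq_meas (τ : ℝ) : MeasurableSet (Sq τ) := by
  rw [← Sq_eq]; exact (mk_cont _ _).measurable (Et_meas τ)

lemma Sq_sub {τ : ℝ} : Sq τ ⊆ Icc (-τ) τ ×ˢ Icc (-τ) τ := by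
  rintro p ⟨h1, h2⟩
  have h3 : ell τ p.2 ≤ τ := min_le_left _ _
  exact ⟨⟨by linarith [h2.1], by linarith [h2.2]⟩, ⟨h1.1.le, h1.2.le⟩⟩

/-- Fubini on the test sets -/
lemma int_Sq {τ : ℝ} {F : ℝ × ℝ → ℝ} (hF : Continuous F) :
    ∫ p in Sq τ, F p = ∫ t in Ioo (-τ) τ, ∫ s in Ioo (-(ell τ t)) (ell τ t), F (s, t) := by
  have hcomp : IsCompact (Icc (-τ) τ ×ˢ Icc (-τ) τ) := isCompact_Icc.prod isCompact_Icc
  have hi : IntegrableOn F (Sq τ) := (hF.continuousOn.integrableOn_compact hcomp).mono_set Sq_sub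
  rw [← integral_indicator (Sq_meas τ), Measure.volume_eq_prod, ← integral_prod_swap, integral_prod]
  · rw [← integral_indicator measurableSet_Ioo]
    congr 1; ext t
    by_cases ht : t ∈ Ioo (-τ) τ
    · rw [indicator_of_mem ht, ← integral_indicator measurableSet_Ioo]
      congr 1; ext s
      by_cases hs : s ∈ Ioo (-(ell τ t)) (ell τ t)
      · rw [indicator_of_mem hs]
        exact indicator_of_mem (show (s, t) ∈ Sq τ from ⟨ht, hs⟩) F
      · rw [indicator_of_notMem hs]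
        exact indicator_of_notMem (fun h : (s, t) ∈ Sq τ => hs h.2) F
    · rw [indicator_of_notMem ht]
      have : (fun s => (Sq τ).indicator F (Prod.swap (t, s))) = fun _ => 0 := by
        ext s
        exact indicator_of_notMem (fun h : (s, t) ∈ Sq τ => ht h.1) F
      rw [this]; simp
  · have h1 : Integrable ((Sq τ).indicator F) := (integrable_indicator_iff (Sq_meas τ)).2 hi
    rw [Measure.volume_eq_prod] at h1
    exact h1.swap

lemma ell_nonneg {τ : ℝ} (h : 0 ≤ τ) (t : ℝ) : 0 ≤ ell τ t := le_min h (Real.sqrt_nonneg _)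

lemma dir_upper {τ : ℝ} (hτ : 0 ≤ τ) {u : ℝ × ℝ → ℝ} (hu : ContDiff ℝ 1 u) (hb : ∀ p, |u p| ≤ 1) :
    ∫ p in Sq τ, fderiv ℝ u p (1, 0) ≤ 4 * τ := by
  have hc : Continuous fun p => fderiv ℝ u p (1, 0) :=
    (hu.continuous_fderiv (by norm_num)).clm_apply continuous_const
  rw [int_Sq hc]
  have hin : ∀ t, ∫ s in Ioo (-(ell τ t)) (ell τ t), fderiv ℝ u (s, t) (1, 0) ≤ 2 := by
    intro t
    have hl := ell_nonneg hτ t
    rw [← integral_Ioc_eq_integral_Ioo, ← intervalIntegral.integral_of_le (by linarith)]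
    have hd : ∀ s, HasDerivAt (fun s => u (s, t)) (fderiv ℝ u (s, t) (1, 0)) s := by
      intro s
      have h1 : HasDerivAt (fun s : ℝ => ((s, t) : ℝ × ℝ)) ((1, 0) : ℝ × ℝ) s :=
        (hasDerivAt_id s).prodMk (hasDerivAt_const s t)
      exact ((hu.differentiable (by norm_num)) (s, t)).hasFDerivAt.comp_hasDerivAt s h1
    have hc2 : Continuous fun s => fderiv ℝ u (s, t) (1, 0) := hc.comp (by fun_prop)
    rw [intervalIntegral.integral_eq_sub_of_hasDerivAt (fun s _ => hd s) (hc2.intervalIntegrable _ _)]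
    have h1 := hb (ell τ t, t)
    have h2 := hb (-(ell τ t), t)
    rw [abs_le] at h1 h2
    linarith [h1.2, h2.1]
  have : ∫ t in Ioo (-τ) τ, ∫ s in Ioo (-(ell τ t)) (ell τ t), fderiv ℝ u (s, t) (1, 0)
      ≤ ∫ t in Ioo (-τ) τ, (2:ℝ) := by
    by_cases hint : IntegrableOn (fun t => ∫ s in Ioo (-(ell τ t)) (ell τ t),
        fderiv ℝ u (s, t) (1, 0)) (Ioo (-τ) τ)
    · exact setIntegral_mono hint (integrableOn_const (by simp)) hin
    · rw [integral_undef hint]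
      exact integral_nonneg fun _ => by norm_num
  refine this.trans (le_of_eq ?_)
  rw [setIntegral_const, smul_eq_mul, Measure.real, Real.volume_Ioo,
    ENNReal.toReal_ofReal (by linarith)]
  ring

lemma vol_Et {τ : ℝ} (hτ : 0 ≤ τ) : volume (Et τ) = ENNReal.ofReal (areaA τ τ) := by
  have h1 : volume (mk e0 e1 ⁻¹' Et τ) = volume (Et τ) := by
    rw [vol_mk (by rw [det_e]; norm_num) (Et_meas τ), det_e]; simp
  rw [← h1, Sq_eq]
  have hfin : volume (Sq τ) ≠ ⊤ := by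
    refine ne_top_of_le_ne_top ?_ (measure_mono Sq_sub)
    rw [Measure.volume_eq_prod, Measure.prod_prod]
    exact ENNReal.mul_ne_top (by simp) (by simp)
  have h2 : (volume (Sq τ)).toReal = areaA τ τ := by
    have e : (volume (Sq τ)).toReal = ∫ p in Sq τ, (1:ℝ) := by
      rw [setIntegral_const, smul_eq_mul, mul_one]; rfl
    rw [e, int_Sq continuous_const]
    unfold areaA
    rw [intervalIntegral.integral_of_le (by linarith), integral_Ioc_eq_integral_Ioo]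
    congr 1; ext t
    have hl := ell_nonneg hτ t
    rw [setIntegral_const, smul_eq_mul, mul_one, Measure.real, Real.volume_Ioo,
      ENNReal.toReal_ofReal (by linarith)]
    unfold ell
    rw [← mul_min_of_nonneg _ _ (by norm_num : (0:ℝ) ≤ 2)]
    ring
  rw [← h2, ENNReal.ofReal_toReal hfin]

/-- upper bound for the perimeter of the test sets -/
lemma per_upper {K : Set V2} (hK : ∀ x ∈ K, |x 0| ≤ 1 ∧ |x 1| ≤ 1) {τ : ℝ} (hτ : 0 ≤ τ) :
    per K (Et τ) ≤ ENNReal.ofReal (8 * τ) := by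
  unfold per
  apply iSup₂_le
  rintro φ ⟨hφ1, -, hφK⟩
  apply ENNReal.ofReal_le_ofReal
  have hcl : ∀ x ∈ closure K, |x 0| ≤ 1 ∧ |x 1| ≤ 1 := by
    intro x hx
    have h : ∀ i, Continuous fun x : V2 => x i := fun i => by fun_prop
    have hc : IsClosed {x : V2 | |x 0| ≤ 1 ∧ |x 1| ≤ 1} :=
      (isClosed_le (h 0).abs continuous_const).inter (isClosed_le (h 1).abs continuous_const)
    exact closure_minimal hK hc hx
  -- components in coordinates
  set u : Fin 2 → ℝ × ℝ → ℝ := fun i p => (φ (mk e0 e1 p)) i with hu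
  have hmkC : ContDiff ℝ 1 (mk e0 e1) := by
    unfold mk
    exact (contDiff_fst.smul contDiff_const).add (contDiff_snd.smul contDiff_const)
  have huC : ∀ i, ContDiff ℝ 1 (u i) := fun i =>
    (EuclideanSpace.proj (𝕜 := ℝ) i).contDiff.comp (hφ1.comp hmkC)
  have hub : ∀ i p, |u i p| ≤ 1 := by
    intro i p
    have := hcl _ (hφK (mk e0 e1 p))
    fin_cases i
    · exact this.1
    · exact this.2
  have hmk : ∀ p, HasFDerivAt (mk e0 e1)
      ((ContinuousLinearMap.fst ℝ ℝ ℝ).smulRight e0 + (ContinuousLinearMap.snd ℝ ℝ ℝ).smulRight e1) p := by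
    intro p
    exact (hasFDerivAt_fst.smul_const e0).add (hasFDerivAt_snd.smul_const e1)
  have hder : ∀ (i : Fin 2) (p v : ℝ × ℝ), fderiv ℝ (u i) p v
      = (fderiv ℝ φ (mk e0 e1 p) (v.1 • e0 + v.2 • e1)) i := by
    intro i p v
    have h1 := ((hφ1.differentiable (by norm_num)) (mk e0 e1 p)).hasFDerivAt.comp p (hmk p)
    have h2 : HasFDerivAt (u i) _ p :=
      (EuclideanSpace.proj (𝕜 := ℝ) i).hasFDerivAt.comp p h1
    rw [h2.fderiv]
    simp
  have hdiv : ∀ p, div φ (mk e0 e1 p) = fderiv ℝ (u 0) p (1, 0) + fderiv ℝ (u 1) p (0, 1) := by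
    intro p
    rw [hder, hder]
    unfold div
    rw [Fin.sum_univ_two]
    simp [e0, e1]
  have hI : ∫ x in Et τ, div φ x = ∫ p in Sq τ, div φ (mk e0 e1 p) := by
    have := int_mk (a := e0) (b := e1) (by rw [det_e]; norm_num) (Et τ) (div φ)
    rw [det_e, abs_one, inv_one, one_mul, Sq_eq] at this
    exact this.symm
  rw [hI]
  simp only [hdiv]
  have hcomp : IsCompact (Icc (-τ) τ ×ˢ Icc (-τ) τ) := isCompact_Icc.prod isCompact_Icc
  have hi : ∀ (i : Fin 2) (v : ℝ × ℝ), IntegrableOn (fun p => fderiv ℝ (u i) p v) (Sq τ) := by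
    intro i v
    have hc : Continuous fun p => fderiv ℝ (u i) p v :=
      ((huC i).continuous_fderiv (by norm_num)).clm_apply continuous_const
    exact (hc.continuousOn.integrableOn_compact hcomp).mono_set Sq_sub
  rw [integral_add (hi 0 _) (hi 1 _)]
  have k1 := dir_upper hτ (huC 0) (hub 0)
  -- second direction by swapping
  set w : ℝ × ℝ → ℝ := fun p => u 1 p.swap with hw
  have hwC : ContDiff ℝ 1 w := (huC 1).comp (contDiff_snd.prodMk contDiff_fst)
  have k2 := dir_upper hτ hwC (fun p => hub 1 _)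
  have k3 : ∫ p in Sq τ, fderiv ℝ (u 1) p (0, 1) = ∫ p in Sq τ, fderiv ℝ w p (1, 0) := by
    have hmp : MeasurePreserving (Prod.swap : ℝ × ℝ → ℝ × ℝ) volume volume := by
      rw [Measure.volume_eq_prod]; exact Measure.measurePreserving_swap
    have hemb : MeasurableEmbedding (Prod.swap : ℝ × ℝ → ℝ × ℝ) :=
      MeasurableEquiv.prodComm.measurableEmbedding
    have e := hmp.setIntegral_preimage_emb hemb (fun p => fderiv ℝ (u 1) p (0, 1)) (Sq τ)
    rw [← e, Sq_swap]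
    congr 1; ext p
    have hsw : HasFDerivAt (Prod.swap : ℝ × ℝ → ℝ × ℝ)
        ((ContinuousLinearMap.snd ℝ ℝ ℝ).prod (ContinuousLinearMap.fst ℝ ℝ ℝ)) p :=
      hasFDerivAt_snd.prodMk hasFDerivAt_fst
    have h1 : HasFDerivAt w _ p :=
      (((huC 1).differentiable (by norm_num)) p.swap).hasFDerivAt.comp p hsw
    rw [h1.fderiv]
    simp
  rw [k3]
  linarith

end H25Ani
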