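import Mathlib
import Pool.Agent.H25.AniG
open MeasureTheory Filter Topology Set
open scoped ContDiff ENNReal

namespace H25Ani

/-- area of a parallelogram given by two strips -/
lemma vol_strips {w1 w2 : V2} (h : det2 w1 w2 ≠ 0) :
    volume {x : V2 | |inner ℝ x w1| < 1 ∧ |inner ℝ x w2| < 1}
      = ENNReal.ofReal (4 / |det2 w1 w2|) := by
  set d := det2 w1 w2 with hd
  set a : V2 := !₂[w2 1 / d, -(w2 0) / d] with ha
  set b : V2 := !₂[-(w1 1) / d, w1 0 / d] with hb
  have a0 : a 0 = w2 1 / d := by simp [ha]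
  have a1 : a 1 = -(w2 0) / d := by simp [ha]
  have b0 : b 0 = -(w1 1) / d := by simp [hb]
  have b1 : b 1 = w1 0 / d := by simp [hb]
  have hdet : det2 a b = 1 / d := by
    rw [det2, a0, a1, b0, b1]
    rw [div_mul_div_comm, div_mul_div_comm, ← sub_div, div_eq_div_iff (by positivity) h, hd, det2]
    ring
  have hdet' : det2 a b ≠ 0 := by rw [hdet]; positivity
  set E : Set V2 := {x : V2 | |inner ℝ x w1| < 1 ∧ |inner ℝ x w2| < 1} with hE
  have hEm : MeasurableSet E := by
    have e : E = {x : V2 | |inner ℝ x w1| < 1} ∩ {x : V2 | |inner ℝ x w2| < 1} := rfl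
    rw [e]
    exact ((isOpen_lt (by fun_prop) continuous_const).inter
      (isOpen_lt (by fun_prop) continuous_const)).measurableSet
  have hpre : mk a b ⁻¹' E = Ioo (-1) 1 ×ˢ Ioo (-1) 1 := by
    ext p
    have i1 : inner ℝ (mk a b p) w1 = p.1 := by
      rw [inner_eq]
      simp only [mk, PiLp.add_apply, PiLp.smul_apply, smul_eq_mul, a0, a1, b0, b1]
      have : d * d⁻¹ = 1 := mul_inv_cancel₀ h
      have e : (p.1 * (w2 1 / d) + p.2 * (-w1 1 / d)) * w1 0
          + (p.1 * (-w2 0 / d) + p.2 * (w1 0 / d)) * w1 1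
          = p.1 * ((w1 0 * w2 1 - w1 1 * w2 0) * d⁻¹) := by ring
      have e2 : w1 0 * w2 1 - w1 1 * w2 0 = d := rfl
      rw [e, e2, this, mul_one]
    have i2 : inner ℝ (mk a b p) w2 = p.2 := by
      rw [inner_eq]
      simp only [mk, PiLp.add_apply, PiLp.smul_apply, smul_eq_mul, a0, a1, b0, b1]
      have : d * d⁻¹ = 1 := mul_inv_cancel₀ h
      have e : (p.1 * (w2 1 / d) + p.2 * (-w1 1 / d)) * w2 0
          + (p.1 * (-w2 0 / d) + p.2 * (w1 0 / d)) * w2 1
          = p.2 * ((w1 0 * w2 1 - w1 1 * w2 0) * d⁻¹) := by ring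
      have e2 : w1 0 * w2 1 - w1 1 * w2 0 = d := rfl
      rw [e, e2, this, mul_one]
    simp only [hE, mem_preimage, mem_ofPred_eq, i1, i2, mem_prod, mem_Ioo, abs_lt]
  have hv := vol_mk hdet' hEm
  rw [hpre, Measure.volume_eq_prod, Measure.prod_prod, Real.volume_Ioo, hdet] at hv
  have hab : |1 / d|⁻¹ = |d| := by rw [abs_div, abs_one, one_div, inv_inv]
  rw [hab] at hv
  have hdp : 0 < |d| := abs_pos.2 h
  have h4 : ENNReal.ofReal (1 - -1) * ENNReal.ofReal (1 - -1) = ENNReal.ofReal 4 := by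
    rw [← ENNReal.ofReal_mul (by norm_num)]; norm_num
  rw [h4] at hv
  have : volume E = ENNReal.ofReal (|d|⁻¹) * (ENNReal.ofReal |d| * volume E) := by
    rw [← mul_assoc, ← ENNReal.ofReal_mul (by positivity), inv_mul_cancel₀ hdp.ne']; simp
  rw [this, ← hv, ← ENNReal.ofReal_mul (by positivity)]
  congr 1
  field_simp

lemma abs_add_abs_le (u v : ℝ) : |u| + |v| ≤ max |u + v| |u - v| := by
  rcases le_total 0 u with hu | hu <;> rcases le_total 0 v with hv | hv
  · rw [abs_of_nonneg hu, abs_of_nonneg hv]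
    exact le_max_of_le_left (le_abs_self _)
  · rw [abs_of_nonneg hu, abs_of_nonpos hv]
    exact le_max_of_le_right ((le_abs_self _).trans' (by linarith))
  · rw [abs_of_nonpos hu, abs_of_nonneg hv]
    exact le_max_of_le_right ((neg_le_abs _).trans' (by linarith))
  · rw [abs_of_nonpos hu, abs_of_nonpos hv]
    exact le_max_of_le_left ((neg_le_abs _).trans' (by linarith))

lemma polar_upper {K : Set V2} (hKb : Bornology.IsBounded K) {w : V2} (hw : w ∈ closure K)
    {x : V2} (hx : x ∈ polarSet K) : inner ℝ x w < 1 := by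
  obtain ⟨M, hM⟩ := hKb.exists_norm_le
  have hbdd : BddAbove ((fun y => inner ℝ x y) '' K) := by
    refine ⟨‖x‖ * M, ?_⟩
    rintro _ ⟨y, hy, rfl⟩
    exact (real_inner_le_norm x y).trans (by gcongr; exact hM y hy)
  have hcl : closure K ⊆ {y | inner ℝ x y ≤ polarNorm K x} := by
    apply closure_minimal
    · intro y hy
      exact le_csSup hbdd ⟨y, hy, rfl⟩
    · exact isClosed_le (by fun_prop) continuous_const
  exact lt_of_le_of_lt (hcl hw) hx

lemma polar_lower {a b : V2} {K : Set V2} (hne : K.Nonempty)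
    (h2 : ∀ y ∈ K, ∃ s t : ℝ, |s| ≤ 1 ∧ |t| ≤ 1 ∧ y = s • a + t • b) :
    {x : V2 | |inner ℝ x (a + b)| < 1 ∧ |inner ℝ x (a - b)| < 1} ⊆ polarSet K := by
  rintro x ⟨hx1, hx2⟩
  have hlt : max |inner ℝ x (a + b)| |inner ℝ x (a - b)| < 1 := max_lt hx1 hx2
  refine lt_of_le_of_lt ?_ hlt
  apply csSup_le (hne.image _)
  rintro _ ⟨y, hy, rfl⟩
  obtain ⟨s, t, hs, ht, rfl⟩ := h2 y hy
  simp only [inner_add_right, inner_smul_right, inner_sub_right]
  refine le_trans ?_ (abs_add_abs_le _ _)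
  have h3 : s * inner ℝ x a ≤ |inner ℝ x a| := by
    calc s * inner ℝ x a ≤ |s * inner ℝ x a| := le_abs_self _
      _ = |s| * |inner ℝ x a| := abs_mul _ _
      _ ≤ 1 * |inner ℝ x a| := by gcongr
      _ = _ := one_mul _
  have h4 : t * inner ℝ x b ≤ |inner ℝ x b| := by
    calc t * inner ℝ x b ≤ |t * inner ℝ x b| := le_abs_self _
      _ = |t| * |inner ℝ x b| := abs_mul _ _
      _ ≤ 1 * |inner ℝ x b| := by gcongr
      _ = _ := one_mul _
  linarith

/-- the open square -/
lemma regGon_four : regGon 4 = {x : V2 | |x 0| < 1 ∧ |x 1| < 1} := by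
  ext x
  simp only [regGon, mem_ofPred_eq]
  constructor
  · intro h
    have h0 := h 0
    have h1 := h 1
    have h2 := h 2
    have h3 := h 3
    have e1 : 2 * Real.pi * ((1:ℕ):ℝ) / ((4:ℕ):ℝ) = Real.pi / 2 := by push_cast; ring
    have e2 : 2 * Real.pi * ((2:ℕ):ℝ) / ((4:ℕ):ℝ) = Real.pi := by push_cast; ring
    have e3 : 2 * Real.pi * ((3:ℕ):ℝ) / ((4:ℕ):ℝ) = Real.pi / 2 + Real.pi := by push_cast; ring
    rw [e1, Real.cos_pi_div_two, Real.sin_pi_div_two] at h1
    rw [e2, Real.cos_pi, Real.sin_pi] at h2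
    rw [e3, Real.cos_add_pi, Real.sin_add_pi, Real.cos_pi_div_two, Real.sin_pi_div_two] at h3
    simp at h0
    rw [abs_lt, abs_lt]
    refine ⟨⟨by linarith, h0⟩, by linarith, by linarith⟩
  · rintro ⟨h1, h2⟩ k
    rw [abs_lt] at h1 h2
    have hper : ∀ m r : ℕ, Real.cos (2 * Real.pi * ((4 * m + r : ℕ) : ℝ) / ((4:ℕ):ℝ))
        = Real.cos (2 * Real.pi * (r : ℝ) / ((4:ℕ):ℝ)) ∧
        Real.sin (2 * Real.pi * ((4 * m + r : ℕ) : ℝ) / ((4:ℕ):ℝ))
        = Real.sin (2 * Real.pi * (r : ℝ) / ((4:ℕ):ℝ)) := by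
      intro m r
      have e : 2 * Real.pi * ((4 * m + r : ℕ) : ℝ) / ((4:ℕ):ℝ)
          = 2 * Real.pi * (r : ℝ) / ((4:ℕ):ℝ) + m * (2 * Real.pi) := by push_cast; ring
      rw [e, Real.cos_add_nat_mul_two_pi, Real.sin_add_nat_mul_two_pi]
      exact ⟨rfl, rfl⟩
    have hk : k = 4 * (k / 4) + k % 4 := (Nat.div_add_mod k 4).symm
    have hr : k % 4 < 4 := Nat.mod_lt _ (by norm_num)
    rw [hk, (hper _ _).1, (hper _ _).2]
    generalize k % 4 = r at hr
    have e1 : 2 * Real.pi * ((1:ℕ):ℝ) / ((4:ℕ):ℝ) = Real.pi / 2 := by push_cast; ring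
    have e2 : 2 * Real.pi * ((2:ℕ):ℝ) / ((4:ℕ):ℝ) = Real.pi := by push_cast; ring
    have e3 : 2 * Real.pi * ((3:ℕ):ℝ) / ((4:ℕ):ℝ) = Real.pi / 2 + Real.pi := by push_cast; ring
    interval_cases r
    · simp; linarith
    · rw [e1, Real.cos_pi_div_two, Real.sin_pi_div_two]; linarith
    · rw [e2, Real.cos_pi, Real.sin_pi]; linarith
    · rw [e3, Real.cos_add_pi, Real.sin_add_pi, Real.cos_pi_div_two, Real.sin_pi_div_two]; linarith

lemma mem_closure_of_smul {K : Set V2} {w : V2} (h : ∀ r : ℝ, 0 ≤ r → r < 1 → r • w ∈ K) :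
    w ∈ closure K := by
  have hlim : Tendsto (fun k : ℕ => (1 - 1 / ((k : ℝ) + 1)) • w) atTop (𝓝 ((1 - 0 : ℝ) • w)) :=
    (tendsto_const_nhds.sub tendsto_one_div_add_atTop_nhds_zero_nat).smul_const w
  rw [sub_zero, one_smul] at hlim
  refine mem_closure_of_tendsto hlim (Eventually.of_forall fun k => h _ ?_ ?_)
  · have : 1 / ((k : ℝ) + 1) ≤ 1 := by rw [div_le_one (by positivity)]; linarith [(Nat.cast_nonneg k : (0:ℝ) ≤ k)]
    linarith
  · have : 0 < 1 / ((k : ℝ) + 1) := by positivity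
    linarith

lemma sq_bounded : Bornology.IsBounded (regGon 4) := by
  rw [isBounded_iff_forall_norm_le]
  refine ⟨2, fun x hx => ?_⟩
  rw [regGon_four] at hx
  have hn : ‖x‖ ^ 2 = x 0 ^ 2 + x 1 ^ 2 := by
    rw [EuclideanSpace.norm_sq_eq, Fin.sum_univ_two]; simp
  have h1 := abs_lt.1 hx.1
  have h2 := abs_lt.1 hx.2
  apply le_of_sq_le_sq _ (by norm_num)
  rw [hn]; nlinarith

lemma vol_polar_sq : volume (polarSet (regGon 4)) ≤ ENNReal.ofReal 2 := by
  set w1 : V2 := !₂[1, 1] with hw1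
  set w2 : V2 := !₂[1, -1] with hw2
  have hd : det2 w1 w2 = -2 := by simp [det2, hw1, hw2]; norm_num
  have hsub : polarSet (regGon 4) ⊆ {x : V2 | |inner ℝ x w1| < 1 ∧ |inner ℝ x w2| < 1} := by
    intro x hx
    have key : ∀ w : V2, |w 0| ≤ 1 → |w 1| ≤ 1 → inner ℝ x w < 1 := by
      intro w h0 h1
      apply polar_upper sq_bounded _ hx
      apply mem_closure_of_smul
      intro r hr0 hr1
      rw [regGon_four]
      simp only [mem_ofPred_eq, PiLp.smul_apply, smul_eq_mul, abs_mul, abs_of_nonneg hr0]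
      constructor <;> nlinarith [abs_nonneg (w 0), abs_nonneg (w 1)]
    simp only [mem_ofPred_eq]
    rw [abs_lt, abs_lt]
    have k1 := key w1 (by simp [hw1]) (by simp [hw1])
    have k2 := key (-w1) (by simp [hw1]) (by simp [hw1])
    have k3 := key w2 (by simp [hw2]) (by simp [hw2])
    have k4 := key (-w2) (by simp [hw2]) (by simp [hw2])
    rw [inner_neg_right] at k2 k4
    refine ⟨⟨by linarith, k1⟩, by linarith, k3⟩
  refine (measure_mono hsub).trans ?_
  rw [vol_strips (by rw [hd]; norm_num), hd]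
  apply ENNReal.ofReal_le_ofReal
  rw [abs_neg, abs_of_pos (by norm_num : (0:ℝ) < 2)]; norm_num

lemma areaA_pos {τ : ℝ} (h0 : 0 < τ) : 0 < areaA τ τ := by
  unfold areaA
  set m := min τ (1 / 2) with hm
  have hm0 : 0 < m := by positivity
  have hm1 : m ≤ 1 / 2 := min_le_right _ _
  have hmτ : m ≤ τ := min_le_left _ _
  have hint : ∀ u v, IntervalIntegrable (fun η : ℝ => min (2 * τ) (2 * √(1 - η ^ 2))) volume u v :=
    fun u v => (min_cont τ).intervalIntegrable _ _
  have hpos : ∀ η : ℝ, 0 ≤ min (2 * τ) (2 * √(1 - η ^ 2)) := fun η => by positivity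
  have h1 : ∫ η in (-m)..m, min (2 * τ) (2 * √(1 - η ^ 2))
      ≤ ∫ η in (-τ)..τ, min (2 * τ) (2 * √(1 - η ^ 2)) := by
    apply intervalIntegral.integral_mono_interval (by linarith) (by linarith) hmτ
    · exact Eventually.of_forall fun η => hpos η
    · exact hint _ _
  refine lt_of_lt_of_le ?_ h1
  apply intervalIntegral.intervalIntegral_pos_of_pos_on (hint _ _) _ (by linarith)
  intro η hη
  apply lt_min (by positivity)
  have : 0 < 1 - η ^ 2 := by nlinarith [hη.1, hη.2]
  positivity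

/-- upper bounds for the value of the square -/
lemma J_square {τ : ℝ} (h0 : 0 < τ) :
    JJ (regGon 4) ≤ ENNReal.ofReal (8 * τ / areaA τ τ * √2) := by
  have hA := areaA_pos h0
  have hc : cheeger (regGon 4) (Metric.ball 0 1) ≤ ENNReal.ofReal (8 * τ) / ENNReal.ofReal (areaA τ τ) := by
    have hE : Et τ ∈ {E : Set V2 | MeasurableSet E ∧ E ⊆ Metric.ball 0 1 ∧ volume E ≠ 0} := by
      refine ⟨Et_meas τ, Et_sub τ, ?_⟩
      rw [vol_Et h0.le]
      simpa using hA
    refine (iInf₂_le (Et τ) hE).trans ?_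
    rw [vol_Et h0.le]
    apply ENNReal.div_le_div_right
    apply per_upper _ h0.le
    intro x hx
    rw [regGon_four] at hx
    exact ⟨hx.1.le, hx.2.le⟩
  have hp : volume (polarSet (regGon 4)) ^ (1 / 2 : ℝ) ≤ ENNReal.ofReal (√2) := by
    refine (ENNReal.rpow_le_rpow vol_polar_sq (by norm_num)).trans (le_of_eq ?_)
    rw [ENNReal.ofReal_rpow_of_pos (by norm_num), Real.sqrt_eq_rpow]
  unfold JJ
  refine (mul_le_mul' hc hp).trans (le_of_eq ?_)
  rw [← ENNReal.ofReal_div_of_pos hA, ← ENNReal.ofReal_mul (by positivity)]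

/-- the square is optimal among parallelograms -/
lemma J_parallelogram {a b : V2} (h : det2 a b ≠ 0) {K : Set V2} (hne : K.Nonempty)
    (h1 : ∀ s t : ℝ, |s| ≤ 1 → |t| ≤ 1 → s • a + t • b ∈ closure K)
    (h2 : ∀ y ∈ K, ∃ s t : ℝ, |s| ≤ 1 ∧ |t| ≤ 1 ∧ y = s • a + t • b) :
    JJ (regGon 4) ≤ JJ K := by
  have hD : 0 < |det2 a b| := abs_pos.2 h
  set D := |det2 a b| with hDdef
  have hfin : JJ (regGon 4) ≠ ⊤ := ne_top_of_le_ne_top ENNReal.ofReal_ne_top (J_square one_pos)
  set j := (JJ (regGon 4)).toReal with hj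
  have hjJ : JJ (regGon 4) = ENNReal.ofReal j := (ENNReal.ofReal_toReal hfin).symm
  have hj0 : 0 ≤ j := ENNReal.toReal_nonneg
  rcases hj0.eq_or_lt with hz | hjpos
  · rw [hjJ, ← hz]; simp
  -- area bound with the best constant
  set m := 8 * √2 / j with hm
  have hm0 : 0 < m := by positivity
  have hA : ∀ τ, 0 < τ → τ ≤ 1 → areaA τ τ ≤ m * τ := by
    intro τ hτ _
    have hAp := areaA_pos hτ
    have h3 := J_square hτ
    rw [hjJ, ENNReal.ofReal_le_ofReal_iff (by positivity)] at h3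
    rw [hm, div_mul_eq_mul_div, le_div_iff₀ hjpos]
    rw [div_mul_eq_mul_div, le_div_iff₀ hAp] at h3
    linarith
  -- the polar set
  set c' := √(2 / D) with hc'
  have hc'0 : 0 < c' := by positivity
  have hdet : det2 (a + b) (a - b) = -2 * det2 a b := by
    simp only [det2, PiLp.add_apply, PiLp.sub_apply]; ring
  have hpol : ENNReal.ofReal c' ≤ volume (polarSet K) ^ (1 / 2 : ℝ) := by
    have h3 : ENNReal.ofReal (2 / D) ≤ volume (polarSet K) := by
      refine le_trans (le_of_eq ?_) (measure_mono (polar_lower hne h2))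
      rw [vol_strips (by rw [hdet]; exact mul_ne_zero (by norm_num) h), hdet, abs_mul]
      congr 1
      rw [abs_neg, abs_of_pos (by norm_num : (0:ℝ) < 2)]
      rw [← hDdef]
      field_simp
      norm_num
    refine le_trans (le_of_eq ?_) (ENNReal.rpow_le_rpow h3 (by norm_num))
    rw [ENNReal.ofReal_rpow_of_pos (by positivity), hc', Real.sqrt_eq_rpow]
  -- each competitor
  have key : ∀ E : Set V2, MeasurableSet E → E ⊆ Metric.ball 0 1 → volume E ≠ 0 →
      ENNReal.ofReal (j / c') ≤ per K E / volume E := by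
    intro E hEm hEB hE0
    have ha := norm_a_pos h hEm hEB
    have hvf : volume E ≠ ⊤ := ne_top_of_le_ne_top (measure_ball_lt_top).ne (measure_mono hEB)
    set v := (volume E).toReal with hv
    have hvp : 0 < v := ENNReal.toReal_pos hE0 hvf
    have hvE : volume E = ENNReal.ofReal v := (ENNReal.ofReal_toReal hvf).symm
    set T := ext1 (mk a b ⁻¹' E) with hT
    set X := ext2 (mk a b ⁻¹' E) with hX
    have hT0 : 0 ≤ T := ENNReal.toReal_nonneg
    have hX0 : 0 ≤ X := ENNReal.toReal_nonneg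
    have hper := per_lower h h1 hEm hEB
    have harea := area_bound h hEm hEB
    have hle := areaA_le hm0.le hA (p := T * D / (2 * ‖a‖)) (q := ‖a‖ * X / 2) (by positivity)
      (by positivity)
    have hprod : T * D / (2 * ‖a‖) * (‖a‖ * X / 2) = T * X * D / 4 := by field_simp; ring
    rw [hprod] at hle
    have hvle : v ≤ m * √(T * X * D / 4) := harea.trans hle
    have hTX : 0 < T * X * D / 4 := by
      by_contra hcon
      have : √(T * X * D / 4) = 0 := Real.sqrt_eq_zero_of_nonpos (not_lt.1 hcon)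
      rw [this, mul_zero] at hvle
      linarith
    rw [hvE]
    refine le_trans ?_ (ENNReal.div_le_div_right hper _)
    rw [← ENNReal.ofReal_div_of_pos hvp]
    apply ENNReal.ofReal_le_ofReal
    rw [div_le_div_iff₀ hc'0 hvp]
    -- real inequality
    have hTXp : 0 < T * X := by
      have : T * X * D / 4 = (T * X) * (D / 4) := by ring
      rw [this] at hTX
      exact pos_of_mul_pos_left hTX (by positivity)
    have s1 : √(T * X * D / 4) = √(T * X) * √D / 2 := by
      rw [show T * X * D / 4 = (T * X) * D / (2 ^ 2) by ring, Real.sqrt_div (by positivity),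
        Real.sqrt_mul hTXp.le, Real.sqrt_sq (by norm_num)]
    have s2 : c' = √2 / √D := by rw [hc', Real.sqrt_div (by norm_num)]
    have s3 : √(T * X) ≤ (T + X) / 2 := by
      rw [show (T + X) / 2 = √(((T + X) / 2) ^ 2) from (Real.sqrt_sq (by positivity)).symm]
      apply Real.sqrt_le_sqrt
      nlinarith [sq_nonneg (T - X)]
    have hsD : 0 < √D := Real.sqrt_pos.2 hD
    have hsD2 : √D * √D = D := Real.mul_self_sqrt hD.le
    calc j * v ≤ j * (m * (√(T * X) * √D / 2)) := by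
          rw [s1] at hvle; gcongr
      _ = 4 * √2 * √(T * X) * √D := by rw [hm]; field_simp; ring
      _ ≤ 4 * √2 * ((T + X) / 2) * √D := by gcongr
      _ = 2 * D * (T + X) * c' := by
          have h5 : D / √D = √D := by rw [div_eq_iff hsD.ne', hsD2]
          rw [s2]
          calc 4 * √2 * ((T + X) / 2) * √D = 2 * √2 * (T + X) * √D := by ring
            _ = 2 * √2 * (T + X) * (D / √D) := by rw [h5]
            _ = _ := by ring
  have hch : ENNReal.ofReal (j / c') ≤ cheeger K (Metric.ball 0 1) := by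
    unfold cheeger
    apply le_iInf₂
    rintro E ⟨hEm, hEB, hE0⟩
    exact key E hEm hEB hE0
  unfold JJ at hjJ ⊢
  rw [hjJ]
  calc ENNReal.ofReal j = ENNReal.ofReal (j / c') * ENNReal.ofReal c' := by
        rw [← ENNReal.ofReal_mul (by positivity)]
        congr 1; field_simp
    _ ≤ _ := mul_le_mul' hch hpol

end H25Ani
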