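import Mathlib
import Pool.Agent.H25.AniH
open MeasureTheory Filter Topology Set
open scoped ContDiff ENNReal

namespace H25Ani

/-- four corners give the parallelogram -/
lemma corners {C : Set V2} (hC : Convex ℝ C) {a b : V2} (h1 : a + b ∈ C) (h2 : a - b ∈ C)
    (h3 : -a + b ∈ C) (h4 : -a - b ∈ C) {s t : ℝ} (hs : |s| ≤ 1) (ht : |t| ≤ 1) :
    s • a + t • b ∈ C := by
  rw [abs_le] at hs ht
  have k1 : s • a + b ∈ C := by
    have := hC h1 h3 (a := (1 + s) / 2) (b := (1 - s) / 2) (by linarith) (by linarith) (by ring)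
    convert this using 1
    module
  have k2 : s • a - b ∈ C := by
    have := hC h2 h4 (a := (1 + s) / 2) (b := (1 - s) / 2) (by linarith) (by linarith) (by ring)
    convert this using 1
    module
  have := hC k1 k2 (a := (1 + t) / 2) (b := (1 - t) / 2) (by linarith) (by linarith) (by ring)
  convert this using 1
  module

lemma det2_mk (a b : V2) (p q : ℝ × ℝ) :
    det2 (mk a b p) (mk a b q) = (p.1 * q.2 - p.2 * q.1) * det2 a b := by
  simp only [det2, mk, PiLp.add_apply, PiLp.smul_apply, smul_eq_mul]; ring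

lemma closure_symm {K : Set V2} (h : ∀ x ∈ K, -x ∈ K) : ∀ x ∈ closure K, -x ∈ closure K := by
  intro x hx
  exact map_mem_closure continuous_neg hx h

lemma zero_mem_of {K : Set V2} (h : SymConvex K) : (0 : V2) ∈ K := by
  obtain ⟨⟨x, hx⟩, -, -, hc, hs⟩ := h
  have := hc hx (hs x hx) (a := 1 / 2) (b := 1 / 2) (by norm_num) (by norm_num) (by norm_num)
  convert this using 1
  module

/-- structure of a centrally symmetric quadrilateral -/
lemma quad_struct {P : Set V2} (hP : IsGon 4 P) :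
    ∃ a b : V2, det2 a b ≠ 0 ∧ (∀ s t : ℝ, |s| ≤ 1 → |t| ≤ 1 → s • a + t • b ∈ closure P) ∧
      (∀ y ∈ P, ∃ s t : ℝ, |s| ≤ 1 ∧ |t| ≤ 1 ∧ y = s • a + t • b) := by
  obtain ⟨hSC, hcard⟩ := hP
  have h0P := zero_mem_of hSC
  obtain ⟨hne, hop, hbd, hconv, hsymm⟩ := hSC
  set C := closure P with hC
  have hCc : IsCompact C := hbd.isCompact_closure
  have hCconv : Convex ℝ C := hconv.closure
  have hCs := closure_symm hsymm
  set X := extremePoints ℝ C with hX
  have hXfin : X.Finite := by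
    rw [← Set.encard_ne_top_iff, hcard]; exact ENat.natCast_ne_top 4
  have hCX : C = convexHull ℝ X := by
    have h1 := closure_convexHull_extremePoints hCc hCconv
    have h2 : IsClosed (convexHull ℝ X) := hXfin.isClosed_convexHull ℝ
    rw [← h1, h2.closure_eq]
  have hXs : ∀ x ∈ X, -x ∈ X := by
    intro x hx
    rw [hX, mem_extremePoints] at hx ⊢
    refine ⟨hCs x hx.1, ?_⟩
    intro y hy z hz hyz
    have h2 := hx.2 (-y) (hCs y hy) (-z) (hCs z hz) ?_
    · exact ⟨by rw [← h2.1, neg_neg], by rw [← h2.2, neg_neg]⟩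
    · obtain ⟨α, β, hα, hβ, hαβ, he⟩ := hyz
      refine ⟨α, β, hα, hβ, hαβ, ?_⟩
      rw [smul_neg, smul_neg, ← neg_add, he, neg_neg]
  have hX0 : (0 : V2) ∉ X := by
    intro h0
    have : ∃ v ∈ X, v ≠ 0 := by
      by_contra hcon
      push Not at hcon
      have hsub : X ⊆ {0} := fun v hv => hcon v hv
      have := Set.encard_le_encard hsub
      rw [hcard, Set.encard_singleton] at this
      norm_num at this
    obtain ⟨v, hv, hv0⟩ := this
    rw [hX, mem_extremePoints] at h0
    have h2 := h0.2 v hv.1 (-v) (hCs v hv.1) ⟨1 / 2, 1 / 2, by norm_num, by norm_num, by norm_num,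
      by module⟩
    exact hv0 h2.1
  have hXne : X.Nonempty := by
    rw [← Set.encard_pos, hcard]; norm_num
  obtain ⟨v1, hv1⟩ := hXne
  have hv10 : v1 ≠ 0 := fun h => hX0 (h ▸ hv1)
  have hne_neg : ∀ v : V2, v ≠ 0 → v ≠ -v := by
    intro v hv h
    apply hv
    have h2 : (2 : ℝ) • v = 0 := by
      rw [two_smul]; nth_rewrite 2 [h]; simp
    exact (smul_eq_zero.1 h2).resolve_left (by norm_num)
  have hex : ∃ v2 ∈ X, v2 ∉ ({v1, -v1} : Set V2) := by
    by_contra hcon
    push Not at hcon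
    have hsub : X ⊆ {v1, -v1} := fun v hv => hcon v hv
    have := Set.encard_le_encard hsub
    rw [hcard, Set.encard_pair (hne_neg v1 hv10)] at this
    norm_num at this
  obtain ⟨v2, hv2, hv2n⟩ := hex
  have hv20 : v2 ≠ 0 := fun h => hX0 (h ▸ hv2)
  simp only [mem_insert_iff, mem_singleton_iff, not_or] at hv2n
  have hX4 : ({v1, -v1, v2, -v2} : Set V2) = X := by
    have hsub : ({v1, -v1, v2, -v2} : Set V2) ⊆ X := by
      intro v hv
      simp only [mem_insert_iff, mem_singleton_iff] at hv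
      rcases hv with rfl | rfl | rfl | rfl
      · exact hv1
      · exact hXs _ hv1
      · exact hv2
      · exact hXs _ hv2
    apply hXfin.eq_of_subset_of_encard_le' hsub
    rw [hcard, encard_insert_of_notMem, encard_insert_of_notMem, encard_pair (hne_neg v2 hv20)]
    · norm_num
    · simp only [mem_insert_iff, mem_singleton_iff, not_or]
      exact ⟨fun h => hv2n.2 h.symm, fun h => hv2n.1 (neg_injective h.symm)⟩
    · simp only [mem_insert_iff, mem_singleton_iff, not_or]
      refine ⟨hne_neg v1 hv10, fun h => hv2n.1 h.symm, fun h => hv2n.2 ?_⟩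
      rw [h, neg_neg]
  have hXsub : ∀ x ∈ X, x ∈ C := fun x hx => hx.1
  set a : V2 := (1 / 2 : ℝ) • (v1 + v2) with ha
  set b : V2 := (1 / 2 : ℝ) • (v1 - v2) with hb
  have hab1 : a + b = v1 := by rw [ha, hb]; module
  have hab2 : a - b = v2 := by rw [ha, hb]; module
  have hab3 : -a + b = -v2 := by rw [← hab2]; abel
  have hab4 : -a - b = -v1 := by rw [← hab1]; abel
  have hin : ∀ y ∈ C, ∃ p : ℝ × ℝ, |p.1| ≤ 1 ∧ |p.2| ≤ 1 ∧ y = mk a b p := by
    intro y hy
    have hcv : Convex ℝ {y : V2 | ∃ p : ℝ × ℝ, |p.1| ≤ 1 ∧ |p.2| ≤ 1 ∧ y = mk a b p} := by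
      rintro x ⟨p, hp1, hp2, rfl⟩ y ⟨q, hq1, hq2, rfl⟩ α β hα hβ hαβ
      refine ⟨α • p + β • q, ?_, ?_, ?_⟩
      · simp only [Prod.fst_add, Prod.smul_fst, smul_eq_mul]
        rw [abs_le] at hp1 hq1 ⊢
        constructor <;> nlinarith
      · simp only [Prod.snd_add, Prod.smul_snd, smul_eq_mul]
        rw [abs_le] at hp2 hq2 ⊢
        constructor <;> nlinarith
      · simp only [mk, Prod.fst_add, Prod.snd_add, Prod.smul_fst, Prod.smul_snd, smul_eq_mul]
        module
    rw [hCX] at hy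
    refine convexHull_min ?_ hcv hy
    rw [← hX4]
    intro v hv
    simp only [mem_insert_iff, mem_singleton_iff] at hv
    rcases hv with rfl | rfl | rfl | rfl
    · exact ⟨(1, 1), by simp, by simp, by simp [mk, hab1]⟩
    · refine ⟨(-1, -1), by simp, by simp, ?_⟩
      simp only [mk]; rw [← hab4]; module
    · refine ⟨(1, -1), by simp, by simp, ?_⟩
      simp only [mk]; rw [← hab2]; module
    · refine ⟨(-1, 1), by simp, by simp, ?_⟩
      simp only [mk]; rw [← hab3]; module
  refine ⟨a, b, ?_, ?_, ?_⟩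
  · intro hdet
    obtain ⟨r, hr, hball⟩ := Metric.isOpen_iff.1 hop 0 h0P
    have hmem : ∀ i : Fin 2, (EuclideanSpace.single i (r / 2) : V2) ∈ C := by
      intro i
      apply subset_closure
      apply hball
      rw [mem_ball_zero_iff, PiLp.norm_single, Real.norm_eq_abs, abs_of_pos (by positivity)]
      linarith
    obtain ⟨p, -, -, hp⟩ := hin _ (hmem 0)
    obtain ⟨q, -, -, hq⟩ := hin _ (hmem 1)
    have h3 := det2_mk a b p q
    rw [← hp, ← hq, hdet, mul_zero] at h3
    simp [det2] at h3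
    exact hr.ne' h3
  · intro s t hs ht
    apply corners hCconv _ _ _ _ hs ht
    · rw [hab1]; exact hXsub _ hv1
    · rw [hab2]; exact hXsub _ hv2
    · rw [hab3]; exact hXsub _ (hXs _ hv2)
    · rw [hab4]; exact hXsub _ (hXs _ hv1)
  · intro y hy
    obtain ⟨p, hp1, hp2, hp⟩ := hin y (subset_closure hy)
    exact ⟨p.1, p.2, hp1, hp2, hp⟩

theorem partA (P : Set V2) (hP : IsGon 4 P) : JJ (regGon 4) ≤ JJ P := by
  obtain ⟨a, b, hd, h1, h2⟩ := quad_struct hP
  exact J_parallelogram hd hP.1.1 h1 h2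

end H25Ani
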