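import Mathlib
import Pool.Agent.H25.AniI
open MeasureTheory Filter Topology Set
open scoped ContDiff ENNReal

namespace H25Ani

lemma norm_sq_two (x : V2) : ‖x‖ ^ 2 = x 0 ^ 2 + x 1 ^ 2 := by
  rw [EuclideanSpace.norm_sq_eq, Fin.sum_univ_two]; simp

lemma ball_sub_regGon (n : ℕ) : Metric.ball (0 : V2) 1 ⊆ regGon n := by
  intro x hx k
  rw [mem_ball_zero_iff] at hx
  set θ := 2 * Real.pi * k / n
  have h1 := Real.cos_sq_add_sin_sq θ
  have h2 := norm_sq_two x
  have h3 : x 0 ^ 2 + x 1 ^ 2 < 1 := by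
    rw [← h2]; nlinarith [norm_nonneg x]
  nlinarith [sq_nonneg (x 0 - Real.cos θ), sq_nonneg (x 1 - Real.sin θ)]

lemma closedBall_sub_closure (n : ℕ) {x : V2} (hx : ‖x‖ ≤ 1) : x ∈ closure (regGon n) := by
  have h := closure_mono (ball_sub_regGon n)
  rw [closure_ball _ one_ne_zero] at h
  exact h (mem_closedBall_zero_iff.2 hx)

/-- polygons circumscribed about the disk have anisotropic isoperimetric ratio at least two -/
lemma cheeger_lower (n : ℕ) : ENNReal.ofReal 2 ≤ cheeger (regGon n) (Metric.ball 0 1) := by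
  unfold cheeger
  apply le_iInf₂
  rintro E ⟨hEm, hEB, hE0⟩
  have hvf : volume E ≠ ⊤ := ne_top_of_le_ne_top (measure_ball_lt_top).ne (measure_mono hEB)
  set v := (volume E).toReal with hv
  have hvp : 0 < v := ENNReal.toReal_pos hE0 hvf
  have hvE : volume E = ENNReal.ofReal v := (ENNReal.ofReal_toReal hvf).symm
  have key : ENNReal.ofReal (2 * v) ≤ per (regGon n) E := by
    apply ofReal_le_of_forall
    intro ε hε
    set δ := min (ε / (2 * v)) 1 with hδ
    have hδ0 : 0 < δ := by positivity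
    have hδ1 : δ ≤ 1 := min_le_right _ _
    have hδε : δ * (2 * v) ≤ ε := by
      have := min_le_left (ε / (2 * v)) 1
      rwa [← hδ, le_div_iff₀ (by positivity)] at this
    let f : ContDiffBump (0 : V2) := ⟨1, 1 + δ, one_pos, by linarith⟩
    set φ : V2 → V2 := fun x => (1 - δ) • (f x • x) with hφ
    have hφF : φ ∈ Fields (regGon n) := by
      refine ⟨?_, ?_, ?_⟩
      · exact (f.contDiff.smul contDiff_id).const_smul _
      · apply HasCompactSupport.of_support_subset_isCompact f.hasCompactSupport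
        intro x hx
        apply subset_tsupport
        rw [Function.mem_support] at hx ⊢
        intro h0
        apply hx
        simp [hφ, h0]
      · intro x
        apply closedBall_sub_closure
        rw [hφ]
        simp only [norm_smul, Real.norm_eq_abs]
        rw [abs_of_nonneg (by linarith), abs_of_nonneg f.nonneg]
        by_cases hx : ‖x‖ < 1 + δ
        · have h1 : f x ≤ 1 := f.le_one
          have h2 : 0 ≤ f x := f.nonneg
          calc (1 - δ) * (f x * ‖x‖) ≤ (1 - δ) * (1 * (1 + δ)) := by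
                have : 0 ≤ 1 - δ := by linarith
                gcongr
            _ = 1 - δ ^ 2 := by ring
            _ ≤ 1 := by nlinarith
        · have h0 : f x = 0 := by
            apply f.zero_of_le_dist
            rw [dist_zero_right]
            exact not_lt.1 hx
          rw [h0]; simp
    have hdiv : ∀ x ∈ E, div φ x = 2 * (1 - δ) := by
      intro x hx
      have hxB := hEB hx
      have hev : φ =ᶠ[𝓝 x] fun y => (1 - δ) • y := by
        filter_upwards [f.eventuallyEq_one_of_mem_ball hxB] with y hy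
        simp only [hφ]
        rw [hy]; simp
      unfold div
      rw [hev.fderiv_eq]
      have hd : fderiv ℝ (fun y : V2 => (1 - δ) • y) x = (1 - δ) • ContinuousLinearMap.id ℝ V2 := by
        have : HasFDerivAt (fun y : V2 => (1 - δ) • y) ((1 - δ) • ContinuousLinearMap.id ℝ V2) x :=
          ((1 - δ) • ContinuousLinearMap.id ℝ V2).hasFDerivAt
        exact this.fderiv
      rw [hd, Fin.sum_univ_two]
      simp; ring
    have hint : ∫ x in E, div φ x = 2 * (1 - δ) * v := by
      rw [setIntegral_congr_fun hEm hdiv, setIntegral_const, smul_eq_mul, mul_comm]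
      rfl
    have h5 := le_per (E := E) hφF
    rw [hint] at h5
    refine le_trans (ENNReal.ofReal_le_ofReal ?_) h5
    nlinarith
  rw [hvE]
  refine le_trans ?_ (ENNReal.div_le_div_right key _)
  rw [← ENNReal.ofReal_div_of_pos hvp]
  apply ENNReal.ofReal_le_ofReal
  rw [le_div_iff₀ hvp]

/-- the circumradius of the regular polygon -/
lemma regGon_norm_lt {n : ℕ} (hn : 3 ≤ n) {y : V2} (hy : y ∈ regGon n) :
    ‖y‖ * Real.cos (Real.pi / n) < 1 := by
  have hn0 : (0:ℝ) < n := by positivity
  set z : ℂ := ⟨y 0, y 1⟩ with hz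
  set θ := Complex.arg z + 2 * Real.pi with hθ
  have hπ := Real.pi_pos
  have hθ0 : 0 < θ := by
    have := Complex.neg_pi_lt_arg z
    rw [hθ]; linarith
  have hzn : ‖z‖ = ‖y‖ := by
    have h1 : ‖z‖ ^ 2 = ‖y‖ ^ 2 := by
      rw [norm_sq_two, ← Complex.normSq_eq_norm_sq, Complex.normSq_apply]; ring
    exact (pow_left_inj₀ (norm_nonneg _) (norm_nonneg _) two_ne_zero).1 h1
  have hc : ‖y‖ * Real.cos θ = y 0 := by
    rw [hθ, Real.cos_add_two_pi, ← hzn, Complex.norm_mul_cos_arg]
  have hs : ‖y‖ * Real.sin θ = y 1 := by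
    rw [hθ, Real.sin_add_two_pi, ← hzn, Complex.norm_mul_sin_arg]
  set t := n * θ / (2 * Real.pi) with ht
  have ht0 : 0 < t := by positivity
  set k := ⌊t + 1 / 2⌋₊ with hk
  have hk1 : (k : ℝ) ≤ t + 1 / 2 := Nat.floor_le (by linarith)
  have hk2 : t + 1 / 2 < k + 1 := Nat.lt_floor_add_one _
  have h := hy k
  have e : y 0 * Real.cos (2 * Real.pi * k / n) + y 1 * Real.sin (2 * Real.pi * k / n)
      = ‖y‖ * Real.cos (θ - 2 * Real.pi * k / n) := by
    rw [Real.cos_sub, ← hc, ← hs]; ring
  rw [e] at h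
  refine lt_of_le_of_lt ?_ h
  have hdiff : θ - 2 * Real.pi * k / n = (2 * Real.pi / n) * (t - k) := by
    rw [ht]; field_simp
  have habs : |θ - 2 * Real.pi * k / n| ≤ Real.pi / n := by
    rw [hdiff, abs_mul, abs_of_pos (by positivity)]
    have : |t - k| ≤ 1 / 2 := by rw [abs_le]; constructor <;> linarith
    calc 2 * Real.pi / n * |t - k| ≤ 2 * Real.pi / n * (1 / 2) := by gcongr
      _ = _ := by ring
  have hcos : Real.cos (Real.pi / n) ≤ Real.cos (θ - 2 * Real.pi * k / n) := by
    rw [← Real.cos_abs (θ - 2 * Real.pi * k / n)]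
    apply Real.cos_le_cos_of_nonneg_of_le_pi (abs_nonneg _) _ habs
    exact div_le_self hπ.le (by exact_mod_cast (by omega : 1 ≤ n))
  gcongr

lemma cos_pi_div_pos {n : ℕ} (hn : 3 ≤ n) : 0 < Real.cos (Real.pi / n) := by
  have hπ := Real.pi_pos
  have hn0 : (0:ℝ) < n := by positivity
  apply Real.cos_pos_of_mem_Ioo
  constructor
  · have : 0 < Real.pi / n := by positivity
    linarith
  · apply div_lt_div_of_pos_left hπ (by norm_num)
    exact_mod_cast (by omega : 2 < n)

lemma polar_regGon {n : ℕ} (hn : 3 ≤ n) :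
    Metric.ball (0 : V2) (Real.cos (Real.pi / n)) ⊆ polarSet (regGon n) := by
  intro x hx
  rw [mem_ball_zero_iff] at hx
  have hc := cos_pi_div_pos hn
  refine lt_of_le_of_lt (b := ‖x‖ / Real.cos (Real.pi / n)) ?_ ?_
  · have h0 : (0 : V2) ∈ regGon n := ball_sub_regGon n (by simp)
    apply csSup_le (Set.Nonempty.image _ ⟨0, h0⟩)
    rintro _ ⟨y, hy, rfl⟩
    have h1 := regGon_norm_lt hn hy
    rw [le_div_iff₀ hc]
    calc inner ℝ x y * Real.cos (Real.pi / n) ≤ ‖x‖ * ‖y‖ * Real.cos (Real.pi / n) := by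
          gcongr; exact real_inner_le_norm x y
      _ = ‖x‖ * (‖y‖ * Real.cos (Real.pi / n)) := by ring
      _ ≤ ‖x‖ * 1 := by gcongr
      _ = ‖x‖ := mul_one _
  · rwa [div_lt_one hc]

lemma JJ_regGon_lower {n : ℕ} (hn : 3 ≤ n) :
    ENNReal.ofReal (2 * (√Real.pi * Real.cos (Real.pi / n))) ≤ JJ (regGon n) := by
  have hc := cos_pi_div_pos hn
  unfold JJ
  rw [ENNReal.ofReal_mul (by norm_num)]
  refine mul_le_mul' (cheeger_lower n) ?_
  have h1 := measure_mono (μ := volume) (polar_regGon hn)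
  rw [EuclideanSpace.volume_ball_fin_two] at h1
  refine le_trans (le_of_eq ?_) (ENNReal.rpow_le_rpow h1 (by norm_num))
  rw [← ENNReal.ofReal_pow hc.le, ← ENNReal.ofReal_mul (by positivity),
    ENNReal.ofReal_rpow_of_pos (by positivity), ← Real.sqrt_eq_rpow,
    Real.sqrt_mul (by positivity), Real.sqrt_sq hc.le, mul_comm]

end H25Ani
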