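import Mathlib
import Pool.Agent.H25.AniJ
open MeasureTheory Filter Topology Set
open scoped ContDiff ENNReal

namespace H25Ani

/-- signs -/
def sg (b : Bool) : ℝ := if b then 1 else -1

lemma sg_sq (b : Bool) : sg b * sg b = 1 := by cases b <;> simp [sg]

/-- abscissae of the vertices of the nearly square polygon -/
noncomputable def xj (m : ℕ) (j : Fin m) : ℝ := -1 + 2 * (j : ℝ) / (m - 1)

/-- vertices of the nearly square polygon -/
noncomputable def vtx (m : ℕ) (i : Bool × Fin m) : V2 :=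
  sg i.1 • !₂[xj m i.2, 1 - xj m i.2 ^ 2 / 1000]

/-- exposing functionals -/
noncomputable def expo (m : ℕ) (i : Bool × Fin m) (x : V2) : ℝ :=
  sg i.1 * (x 1 + xj m i.2 / 500 * x 0)

lemma xj_mem {m : ℕ} (hm : 2 ≤ m) (j : Fin m) : -1 ≤ xj m j ∧ xj m j ≤ 1 := by
  have h1 : (0:ℝ) < m - 1 := by
    have : (2:ℝ) ≤ m := by exact_mod_cast hm
    linarith
  have h2 : (j : ℝ) ≤ m - 1 := by
    have : (j : ℕ) + 1 ≤ m := j.2
    have : ((j : ℕ) : ℝ) + 1 ≤ m := by exact_mod_cast this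
    linarith
  have h3 : (j : ℝ) / (m - 1) ≤ 1 := by rw [div_le_one h1]; exact h2
  have h4 : 0 ≤ (j : ℝ) / (m - 1) := by positivity
  unfold xj
  rw [mul_div_assoc]
  constructor <;> linarith

lemma xj_inj {m : ℕ} (hm : 2 ≤ m) {j k : Fin m} (h : xj m j = xj m k) : j = k := by
  have h1 : (0:ℝ) < m - 1 := by
    have : (2:ℝ) ≤ m := by exact_mod_cast hm
    linarith
  unfold xj at h
  have h2 : 2 * (j : ℝ) / (m - 1) = 2 * (k : ℝ) / (m - 1) := by linarith
  rw [div_left_inj' h1.ne'] at h2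
  have h3 : ((j : ℕ) : ℝ) = (k : ℕ) := by linarith
  exact Fin.ext (by exact_mod_cast h3)

lemma expo_vtx {m : ℕ} (i k : Bool × Fin m) :
    expo m i (vtx m k) = sg i.1 * sg k.1 *
      (1 + xj m i.2 ^ 2 / 1000 - (xj m k.2 - xj m i.2) ^ 2 / 1000) := by
  unfold expo vtx
  simp
  ring

lemma expo_lt {m : ℕ} (hm : 2 ≤ m) {i k : Bool × Fin m} (h : k ≠ i) :
    expo m i (vtx m k) < expo m i (vtx m i) := by
  rw [expo_vtx, expo_vtx, sg_sq]
  have h1 := xj_mem hm i.2
  have h2 := xj_mem hm k.2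
  have hb : (xj m k.2 - xj m i.2) ^ 2 ≤ 4 := by nlinarith
  by_cases hs : k.1 = i.1
  · have hne : k.2 ≠ i.2 := fun h' => h (Prod.ext hs h')
    have hx : xj m k.2 - xj m i.2 ≠ 0 := fun h' => hne (xj_inj hm (by linarith))
    have := sq_pos_of_ne_zero hx
    rw [hs, sg_sq]
    nlinarith
  · have : sg i.1 * sg k.1 = -1 := by
      cases hi : i.1 <;> cases hk : k.1 <;> simp_all [sg]
    rw [this]
    nlinarith [sq_nonneg (xj m i.2)]

lemma vtx_inj {m : ℕ} (hm : 2 ≤ m) : Function.Injective (vtx m) := by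
  intro i k h
  by_contra hne
  have := expo_lt hm (i := i) (k := k) (Ne.symm hne)
  rw [h] at this
  exact lt_irrefl _ this

lemma expo_lin {m : ℕ} (i : Bool × Fin m) (x y : V2) (α β : ℝ) :
    expo m i (α • x + β • y) = α * expo m i x + β * expo m i y := by
  unfold expo; simp; ring

lemma ext_hull {m : ℕ} (hm : 2 ≤ m) :
    extremePoints ℝ (convexHull ℝ (range (vtx m))) = range (vtx m) := by
  apply Subset.antisymm extremePoints_convexHull_subset
  rintro _ ⟨i, rfl⟩
  set S : Set V2 := {y | y = vtx m i ∨ expo m i y < expo m i (vtx m i)} with hS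
  have hSc : Convex ℝ S := by
    rintro x hx y hy α β hα hβ hαβ
    simp only [hS, mem_ofPred_eq] at hx hy ⊢
    have ec : α * expo m i (vtx m i) + β * expo m i (vtx m i) = expo m i (vtx m i) := by
      rw [← add_mul, hαβ, one_mul]
    rcases hx with rfl | hx <;> rcases hy with rfl | hy
    · left; rw [← add_smul, hαβ, one_smul]
    · rcases hβ.eq_or_lt with h0 | h0
      · left; rw [← h0]; rw [← h0, add_zero] at hαβ; rw [hαβ]; simp
      · right; rw [expo_lin]; linarith [mul_lt_mul_of_pos_left hy h0]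
    · rcases hα.eq_or_lt with h0 | h0
      · left; rw [← h0]; rw [← h0, zero_add] at hαβ; rw [hαβ]; simp
      · right; rw [expo_lin]; linarith [mul_lt_mul_of_pos_left hx h0]
    · right; rw [expo_lin]
      rcases hα.eq_or_lt with h0 | h0
      · rw [← h0]; rw [← h0, zero_add] at hαβ; rw [hαβ]; simpa using hy
      · linarith [mul_le_mul_of_nonneg_left hy.le hβ, mul_lt_mul_of_pos_left hx h0]
  have hsub : convexHull ℝ (range (vtx m)) ⊆ S := by
    apply convexHull_min _ hSc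
    rintro _ ⟨k, rfl⟩
    by_cases h : k = i
    · left; rw [h]
    · right; exact expo_lt hm h
  rw [mem_extremePoints]
  refine ⟨subset_convexHull ℝ _ ⟨i, rfl⟩, ?_⟩
  rintro x hx y hy ⟨α, β, hα, hβ, hαβ, he⟩
  have h1 := congrArg (expo m i) he
  rw [expo_lin] at h1
  have ec : α * expo m i (vtx m i) + β * expo m i (vtx m i) = expo m i (vtx m i) := by
    rw [← add_mul, hαβ, one_mul]
  rcases hsub hx with hx' | hx' <;> rcases hsub hy with hy' | hy'
  · exact ⟨hx', hy'⟩
  · exfalso; rw [hx'] at h1; linarith [mul_lt_mul_of_pos_left hy' hβ]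
  · exfalso; rw [hy'] at h1; linarith [mul_lt_mul_of_pos_left hx' hα]
  · exfalso; linarith [mul_lt_mul_of_pos_left hx' hα, mul_lt_mul_of_pos_left hy' hβ]

lemma hull_symm {m : ℕ} : ∀ x ∈ convexHull ℝ (range (vtx m)), -x ∈ convexHull ℝ (range (vtx m)) := by
  intro x hx
  have h1 : convexHull ℝ (range (vtx m)) ⊆ {x | -x ∈ convexHull ℝ (range (vtx m))} := by
    apply convexHull_min
    · rintro _ ⟨⟨b, j⟩, rfl⟩
      have : -(vtx m (b, j)) = vtx m (!b, j) := by
        cases b <;> simp [vtx, sg]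
      rw [mem_ofPred_eq, this]
      exact subset_convexHull ℝ _ ⟨_, rfl⟩
    · intro x hx y hy α β hα hβ hαβ
      have := (convex_convexHull ℝ (range (vtx m))) hx hy hα hβ hαβ
      simp only [mem_ofPred_eq]
      convert this using 1
      module
  exact h1 hx

/-- the nearly square polygon -/
noncomputable def Pm (m : ℕ) : Set V2 := interior (convexHull ℝ (range (vtx m)))

lemma hull_sub {m : ℕ} (hm : 2 ≤ m) : ∀ x ∈ convexHull ℝ (range (vtx m)), |x 0| ≤ 1 ∧ |x 1| ≤ 1 := by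
  have hcv : Convex ℝ {x : V2 | |x 0| ≤ 1 ∧ |x 1| ≤ 1} := by
    rintro x ⟨hx1, hx2⟩ y ⟨hy1, hy2⟩ α β hα hβ hαβ
    simp only [mem_ofPred_eq, PiLp.add_apply, PiLp.smul_apply, smul_eq_mul]
    rw [abs_le] at hx1 hx2 hy1 hy2 ⊢
    rw [abs_le]
    refine ⟨⟨?_, ?_⟩, ?_, ?_⟩ <;> nlinarith
  have h1 : convexHull ℝ (range (vtx m)) ⊆ {x : V2 | |x 0| ≤ 1 ∧ |x 1| ≤ 1} := by
    apply convexHull_min _ hcv
    rintro _ ⟨⟨b, j⟩, rfl⟩
    have h := xj_mem hm j
    have hs : |sg b| = 1 := by cases b <;> simp [sg]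
    simp only [vtx, mem_ofPred_eq, PiLp.smul_apply, smul_eq_mul, abs_mul, hs, one_mul]
    simp
    constructor
    · rw [abs_le]; exact h
    · rw [abs_le]; constructor <;> nlinarith
  exact h1

lemma vtx_first {m : ℕ} (hm : 2 ≤ m) (b : Bool) :
    vtx m (b, ⟨0, by omega⟩) = sg b • !₂[-1, 1 - 1 / 1000] := by
  simp only [vtx, xj]
  norm_num

lemma vtx_last {m : ℕ} (hm : 2 ≤ m) (b : Bool) :
    vtx m (b, ⟨m - 1, by omega⟩) = sg b • !₂[1, 1 - 1 / 1000] := by
  have h1 : (0:ℝ) < m - 1 := by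
    have : (2:ℝ) ≤ m := by exact_mod_cast hm
    linarith
  have h2 : xj m ⟨m - 1, by omega⟩ = 1 := by
    unfold xj
    simp only
    rw [Nat.cast_sub (by omega), Nat.cast_one, mul_div_assoc, div_self h1.ne']; norm_num
  simp only [vtx, h2]
  norm_num

lemma rect_sub {m : ℕ} (hm : 2 ≤ m) {x : V2} (h0 : |x 0| ≤ 1) (h1 : |x 1| ≤ 1 - 1 / 1000) :
    x ∈ convexHull ℝ (range (vtx m)) := by
  set a : V2 := !₂[1, 0] with ha
  set b : V2 := !₂[0, 1 - 1 / 1000] with hb
  have hx : x = x 0 • a + (x 1 / (1 - 1 / 1000)) • b := by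
    ext i; fin_cases i
    · simp [ha, hb]
    · simp [ha, hb]; norm_num
  have mem : ∀ k, vtx m k ∈ convexHull ℝ (range (vtx m)) := fun k => subset_convexHull ℝ _ ⟨k, rfl⟩
  rw [hx]
  apply corners (convex_convexHull ℝ _) _ _ _ _ h0
  · rw [abs_div, div_le_one (by norm_num)]
    rwa [abs_of_pos (by norm_num : (0:ℝ) < 1 - 1 / 1000)]
  · convert mem (true, ⟨m - 1, by omega⟩) using 1
    rw [vtx_last hm]; ext i; fin_cases i <;> simp [ha, hb, sg]
  · convert mem (false, ⟨0, by omega⟩) using 1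
    rw [vtx_first hm]; ext i; fin_cases i <;> simp [ha, hb, sg]
  · convert mem (true, ⟨0, by omega⟩) using 1
    rw [vtx_first hm]; ext i; fin_cases i <;> simp [ha, hb, sg]
  · convert mem (false, ⟨m - 1, by omega⟩) using 1
    rw [vtx_last hm]; ext i; fin_cases i <;> simp [ha, hb, sg]

lemma hull_compact {m : ℕ} : IsCompact (convexHull ℝ (range (vtx m))) :=
  (finite_range _).isCompact_convexHull ℝ

lemma Pm_nonempty {m : ℕ} (hm : 2 ≤ m) : (Pm m).Nonempty := by
  refine ⟨0, ?_⟩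
  unfold Pm
  rw [mem_interior]
  refine ⟨{x : V2 | |x 0| < 1 / 2} ∩ {x : V2 | |x 1| < 1 / 2}, ?_, ?_, ?_⟩
  · rintro x ⟨h0, h1⟩
    simp only [mem_ofPred_eq] at h0 h1
    exact rect_sub hm (by linarith) (by linarith)
  · have h : ∀ i, Continuous fun x : V2 => x i := fun i => by fun_prop
    exact (isOpen_lt (h 0).abs continuous_const).inter (isOpen_lt (h 1).abs continuous_const)
  · simp

lemma closure_Pm {m : ℕ} (hm : 2 ≤ m) : closure (Pm m) = convexHull ℝ (range (vtx m)) := by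
  unfold Pm
  rw [(convex_convexHull ℝ _).closure_interior_eq_closure_of_nonempty_interior (Pm_nonempty hm),
    hull_compact.isClosed.closure_eq]

lemma isGon_Pm {m : ℕ} (hm : 2 ≤ m) : IsGon (2 * m) (Pm m) := by
  refine ⟨⟨Pm_nonempty hm, isOpen_interior, hull_compact.isBounded.subset interior_subset,
    (convex_convexHull ℝ _).interior, ?_⟩, ?_⟩
  · intro x hx
    unfold Pm at hx ⊢
    rw [mem_interior] at hx ⊢
    obtain ⟨U, hU, hUo, hxU⟩ := hx
    refine ⟨Neg.neg ⁻¹' U, ?_, hUo.preimage continuous_neg, by simpa using hxU⟩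
    intro y hy
    have := hull_symm _ (hU hy)
    simpa using this
  · rw [closure_Pm hm, ext_hull hm, ← image_univ, (vtx_inj hm).encard_image, encard_univ]
    simp

/-- the polar body of the nearly square polygon is small -/
lemma vol_polar_Pm {m : ℕ} (hm : 2 ≤ m) :
    volume (polarSet (Pm m)) ≤ ENNReal.ofReal (2000 / 999) := by
  set w1 : V2 := !₂[1, 1 - 1 / 1000] with hw1
  set w2 : V2 := !₂[1, -(1 - 1 / 1000)] with hw2
  have hd : det2 w1 w2 = -(999 / 500) := by simp [det2, hw1, hw2]; norm_num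
  have hbd : Bornology.IsBounded (Pm m) := (isGon_Pm hm).1.2.2.1
  have hsub : polarSet (Pm m) ⊆ {x : V2 | |inner ℝ x w1| < 1 ∧ |inner ℝ x w2| < 1} := by
    intro x hx
    have key : ∀ w : V2, |w 0| ≤ 1 → |w 1| ≤ 1 - 1 / 1000 → inner ℝ x w < 1 := by
      intro w h0 h1
      apply polar_upper hbd _ hx
      rw [closure_Pm hm]
      exact rect_sub hm h0 h1
    simp only [mem_ofPred_eq]
    rw [abs_lt, abs_lt]
    have k1 := key w1 (by simp [hw1]) (by simp [hw1]; norm_num [abs_le])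
    have k2 := key (-w1) (by simp [hw1]) (by simp [hw1]; norm_num [abs_le])
    have k3 := key w2 (by simp [hw2]) (by simp [hw2]; norm_num [abs_le])
    have k4 := key (-w2) (by simp [hw2]) (by simp [hw2]; norm_num [abs_le])
    rw [inner_neg_right] at k2 k4
    refine ⟨⟨by linarith, k1⟩, by linarith, k3⟩
  refine (measure_mono hsub).trans ?_
  rw [vol_strips (by rw [hd]; norm_num), hd]
  apply ENNReal.ofReal_le_ofReal
  rw [abs_neg, abs_of_pos (by norm_num : (0:ℝ) < 999 / 500)]; norm_num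

lemma JJ_Pm_upper {m : ℕ} (hm : 2 ≤ m) {τ : ℝ} (h0 : 0 < τ) :
    JJ (Pm m) ≤ ENNReal.ofReal (8 * τ / areaA τ τ * √(2000 / 999)) := by
  have hA := areaA_pos h0
  have hc : cheeger (Pm m) (Metric.ball 0 1) ≤ ENNReal.ofReal (8 * τ) / ENNReal.ofReal (areaA τ τ) := by
    have hE : Et τ ∈ {E : Set V2 | MeasurableSet E ∧ E ⊆ Metric.ball 0 1 ∧ volume E ≠ 0} := by
      refine ⟨Et_meas τ, Et_sub τ, ?_⟩
      rw [vol_Et h0.le]
      simpa using hA
    refine (iInf₂_le (Et τ) hE).trans ?_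
    rw [vol_Et h0.le]
    apply ENNReal.div_le_div_right
    apply per_upper _ h0.le
    intro x hx
    exact hull_sub hm x (interior_subset hx)
  have hp : volume (polarSet (Pm m)) ^ (1 / 2 : ℝ) ≤ ENNReal.ofReal (√(2000 / 999)) := by
    refine (ENNReal.rpow_le_rpow (vol_polar_Pm hm) (by norm_num)).trans (le_of_eq ?_)
    rw [ENNReal.ofReal_rpow_of_pos (by norm_num), Real.sqrt_eq_rpow]
  unfold JJ
  refine (mul_le_mul' hc hp).trans (le_of_eq ?_)
  rw [← ENNReal.ofReal_div_of_pos hA, ← ENNReal.ofReal_mul (by positivity)]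

end H25Ani
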