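import Mathlib
import Pool.Agent.H25.AniK
open MeasureTheory Filter Topology Set
open scoped ContDiff ENNReal

namespace H25Ani

lemma numeric {n : ℕ} (hn : 22 ≤ n) :
    8 * Real.cos (Real.pi / 8) / (√2 + Real.pi / 2) * √(2000 / 999)
      < 2 * (√Real.pi * Real.cos (Real.pi / n)) := by
  have hπ1 : 3.1415 < Real.pi := Real.pi_gt_d4
  have hπ2 : Real.pi < 3.1416 := Real.pi_lt_d4
  have hs0 : (0:ℝ) ≤ √2 := Real.sqrt_nonneg _
  have hss : √2 * √2 = 2 := Real.mul_self_sqrt (by norm_num)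
  have hs1 : 1.4142 < √2 := by
    by_contra h; push Not at h; nlinarith
  have hs2 : √2 < 1.4143 := by
    by_contra h; push Not at h; nlinarith
  have hdbl : 4 * Real.cos (Real.pi / 8) ^ 2 = 2 + √2 := by
    have := Real.cos_two_mul (Real.pi / 8)
    rw [show 2 * (Real.pi / 8) = Real.pi / 4 by ring, Real.cos_pi_div_four] at this
    linarith
  have hc0 : 0 < Real.cos (Real.pi / 8) := Real.cos_pos_of_mem_Ioo ⟨by linarith, by linarith⟩
  have hcn : 0.9898 ≤ Real.cos (Real.pi / n) := by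
    have h1 := Real.one_sub_sq_div_two_le_cos (x := Real.pi / n)
    have hn0 : (22:ℝ) ≤ n := by exact_mod_cast hn
    have h2 : Real.pi / n ≤ 3.1416 / 22 := by
      apply div_le_div₀ (by norm_num) hπ2.le (by norm_num) hn0
    have h3 : 0 ≤ Real.pi / n := by positivity
    nlinarith
  have hA : 0 < √2 + Real.pi / 2 := by positivity
  have hR : 0 < 2 * (√Real.pi * Real.cos (Real.pi / n)) := by positivity
  apply lt_of_pow_lt_pow_left₀ 2 hR.le
  rw [mul_pow, Real.sq_sqrt (by norm_num), div_pow, mul_pow, mul_pow, mul_pow, Real.sq_sqrt (by positivity)]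
  rw [div_mul_eq_mul_div, div_lt_iff₀ (by positivity)]
  have e1 : (8:ℝ) ^ 2 * Real.cos (Real.pi / 8) ^ 2 = 16 * (2 + √2) := by rw [← hdbl]; ring
  rw [e1]
  have h4 : 2.98495 ≤ √2 + Real.pi / 2 := by linarith
  have h5 : 8.9099 ≤ (√2 + Real.pi / 2) ^ 2 := by nlinarith
  have h6 : 0.9797 ≤ Real.cos (Real.pi / n) ^ 2 := by nlinarith
  have h7 : 3.0777 ≤ Real.pi * Real.cos (Real.pi / n) ^ 2 := by nlinarith
  have h8 : 27.4 ≤ Real.pi * Real.cos (Real.pi / n) ^ 2 * (√2 + Real.pi / 2) ^ 2 := by nlinarith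
  nlinarith

theorem partB (n : ℕ) (hev : Even n) (hn : 22 ≤ n) : ∃ P : Set V2, IsGon n P ∧ JJ P < JJ (regGon n) := by
  obtain ⟨m, hm⟩ := hev
  have hm2 : 2 ≤ m := by omega
  refine ⟨Pm m, ?_, ?_⟩
  · have := isGon_Pm hm2
    rwa [show 2 * m = n by omega] at this
  · have hπ := Real.pi_pos
    have h0 : 0 < Real.cos (Real.pi / 8) := Real.cos_pos_of_mem_Ioo ⟨by linarith, by linarith⟩
    have h1 := JJ_Pm_upper hm2 h0
    rw [areaA_cos] at h1
    refine lt_of_le_of_lt h1 (lt_of_lt_of_le ?_ (JJ_regGon_lower (by omega)))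
    rw [ENNReal.ofReal_lt_ofReal_iff]
    · exact numeric hn
    · have := cos_pi_div_pos (n := n) (by omega)
      positivity

end H25Ani
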